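import Pool.Agent.Helper6.Orth.Basic

/-!
The base arrangement: rings of circles in a logarithmic triangular lattice, and concentric circles.
-/

namespace Pool.Agent.Helper6.Orth

open Complex

/-- Parameters: an angle `0 < θ < π / 4` and a ratio `lam > 1` with
`lam + 1 / lam = 2 cos θ / cos (2 θ)`. -/
structure Par where
  θ : ℝ
  lam : ℝ
  θ0 : 0 < θ
  θ1 : θ < Real.pi / 4
  lam1 : 1 < lam
  eq : Real.cos (2 * θ) * (lam ^ 2 + 1) = 2 * lam * Real.cos θ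

namespace Par

variable (p : Par)

/-- `cos 2θ`. -/
noncomputable def k : ℝ := Real.cos (2 * p.θ)

/-- The relative radius of the ring circles. -/
noncomputable def ρ : ℝ := √(1 - p.k)

lemma cos_lt_one : Real.cos p.θ < 1 := by
  have h := p.θ0
  have h1 := p.θ1
  have hpi := Real.pi_pos
  have := Real.cos_lt_cos_of_nonneg_of_le_pi (x := 0) (y := p.θ) le_rfl (by linarith) h
  rwa [Real.cos_zero] at this

lemma half_lt_cos : 1 / 2 < Real.cos p.θ := by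
  have h := p.θ0
  have h1 := p.θ1
  have hpi := Real.pi_pos
  have := Real.cos_lt_cos_of_nonneg_of_le_pi (x := p.θ) (y := Real.pi / 3) h.le (by linarith)
    (by linarith)
  rwa [Real.cos_pi_div_three] at this

lemma k_eq : p.k = 2 * Real.cos p.θ ^ 2 - 1 := Real.cos_two_mul _

lemma k_pos : 0 < p.k := by
  have h := p.θ0
  have h1 := p.θ1
  apply Real.cos_pos_of_mem_Ioo
  constructor <;> linarith [Real.pi_pos]

lemma k_lt_one : p.k < 1 := by
  rw [k_eq]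
  have h1 := p.cos_lt_one
  have h2 := p.half_lt_cos
  nlinarith

lemma ρ_sq : p.ρ ^ 2 = 1 - p.k := Real.sq_sqrt (by linarith [p.k_lt_one])

lemma ρ_pos : 0 < p.ρ := Real.sqrt_pos.2 (by linarith [p.k_lt_one])

lemma ρ_lt_one : p.ρ < 1 := by
  have h := p.ρ_sq
  have h1 := p.k_pos
  have h2 := p.ρ_pos
  nlinarith

lemma lam_pos : 0 < p.lam := by linarith [p.lam1]

lemma rel : p.k * (p.lam ^ 2 + 1) = 2 * p.lam * Real.cos p.θ := p.eq

/-- `(λ² + 1)² k > 4 λ²`. -/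
lemma key1 : 4 * p.lam ^ 2 < p.k * (p.lam ^ 2 + 1) ^ 2 := by
  have h := p.rel
  have hk := p.k_pos
  have hl := p.lam_pos
  have hc : p.k < Real.cos p.θ ^ 2 := by
    rw [k_eq]; nlinarith [p.cos_lt_one, p.half_lt_cos]
  have h1 : p.k * (p.k * (p.lam ^ 2 + 1) ^ 2) = 4 * p.lam ^ 2 * Real.cos p.θ ^ 2 := by
    have : p.k * (p.k * (p.lam ^ 2 + 1) ^ 2) = (p.k * (p.lam ^ 2 + 1)) ^ 2 := by ring
    rw [this, h]; ring
  have h2 : p.k * (4 * p.lam ^ 2) < p.k * (p.k * (p.lam ^ 2 + 1) ^ 2) := by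
    rw [h1]
    have : 0 < 4 * p.lam ^ 2 := by positivity
    nlinarith
  exact lt_of_mul_lt_mul_left h2 hk.le

/-- `λ² (1 - ρ) > 1 + ρ`. -/
lemma key2 : 1 + p.ρ < p.lam ^ 2 * (1 - p.ρ) := by
  have h := p.key1
  have hρ := p.ρ_sq
  have hρ0 := p.ρ_pos
  have hl := p.lam1
  have h1 : (p.ρ * (p.lam ^ 2 + 1)) ^ 2 < (p.lam ^ 2 - 1) ^ 2 := by
    have : (p.ρ * (p.lam ^ 2 + 1)) ^ 2 = (1 - p.k) * (p.lam ^ 2 + 1) ^ 2 := by rw [mul_pow, hρ]
    rw [this]
    nlinarith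
  have h2 : 0 ≤ p.lam ^ 2 - 1 := by nlinarith
  have h3 := lt_of_pow_lt_pow_left₀ 2 h2 h1
  linarith

/-- `λ (1 - ρ) > √k`. -/
lemma key3 : √p.k < p.lam * (1 - p.ρ) := by
  have h := p.key2
  have hρ := p.ρ_sq
  have hρ0 := p.ρ_pos
  have hρ1 := p.ρ_lt_one
  have hl := p.lam_pos
  rw [Real.sqrt_lt' (mul_pos hl (by linarith))]
  have h1 : (1 + p.ρ) * (1 - p.ρ) < p.lam ^ 2 * (1 - p.ρ) * (1 - p.ρ) :=
    mul_lt_mul_of_pos_right h (by linarith)
  nlinarith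

/-- `λ √k > 1 + ρ`. -/
lemma key4 : 1 + p.ρ < p.lam * √p.k := by
  have h := p.key2
  have hρ := p.ρ_sq
  have hρ0 := p.ρ_pos
  have hρ1 := p.ρ_lt_one
  have hl := p.lam_pos
  have hk := p.k_pos
  have hs : √p.k ^ 2 = p.k := Real.sq_sqrt hk.le
  have hs0 : 0 ≤ √p.k := Real.sqrt_nonneg _
  have h1 : (1 + p.ρ) * (1 + p.ρ) < p.lam ^ 2 * (1 - p.ρ) * (1 + p.ρ) :=
    mul_lt_mul_of_pos_right h (by linarith)
  have h2 : (1 + p.ρ) ^ 2 < (p.lam * √p.k) ^ 2 := by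
    rw [mul_pow, hs]
    nlinarith
  exact lt_of_pow_lt_pow_left₀ 2 (by positivity) h2

/-! ### The circles -/

/-- The ring circle `(i, j)`: centre `λ^i e^{iθ(2j+i)}`, radius `ρ λ^i`. -/
noncomputable def ring (i j : ℕ) : Circ where
  c := (p.lam ^ i : ℝ) * Complex.exp (((2 * j + i : ℕ) * p.θ : ℝ) * I)
  r := p.ρ * p.lam ^ i
  pos := by have := p.ρ_pos; have := p.lam_pos; positivity

/-- The concentric circle `i`: centre `0`, radius `√k λ^i`. -/
noncomputable def con (i : ℕ) : Circ where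
  c := 0
  r := √p.k * p.lam ^ i
  pos := by have := Real.sqrt_pos.2 p.k_pos; have := p.lam_pos; positivity

lemma ring_re (i j : ℕ) : (p.ring i j).c.re = p.lam ^ i * Real.cos ((2 * j + i : ℕ) * p.θ) := by
  unfold ring
  simp only
  rw [re_ofReal_mul, exp_ofReal_mul_I_re]

lemma ring_im (i j : ℕ) : (p.ring i j).c.im = p.lam ^ i * Real.sin ((2 * j + i : ℕ) * p.θ) := by
  unfold ring
  simp only
  rw [im_ofReal_mul, exp_ofReal_mul_I_im]

/-- The squared distance of the centres. -/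
lemma dist_ring (i j i' j' : ℕ) : normSq ((p.ring i j).c - (p.ring i' j').c) =
    (p.lam ^ i) ^ 2 + (p.lam ^ i') ^ 2 - 2 * (p.lam ^ i * p.lam ^ i') *
      Real.cos ((((2 * j + i : ℕ) : ℝ) - ((2 * j' + i' : ℕ) : ℝ)) * p.θ) := by
  rw [normSq_apply, sub_re, sub_im, ring_re, ring_im, ring_re, ring_im,
    sub_mul ((2 * j + i : ℕ) : ℝ) ((2 * j' + i' : ℕ) : ℝ) p.θ, Real.cos_sub]
  have h1 := Real.sin_sq_add_cos_sq (((2 * j + i : ℕ) : ℝ) * p.θ)
  have h2 := Real.sin_sq_add_cos_sq (((2 * j' + i' : ℕ) : ℝ) * p.θ)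
  linear_combination (p.lam ^ i) ^ 2 * h1 + (p.lam ^ i') ^ 2 * h2

lemma normSq_ring (i j : ℕ) : normSq (p.ring i j).c = (p.lam ^ i) ^ 2 := by
  rw [normSq_apply, ring_re, ring_im]
  have h1 := Real.sin_sq_add_cos_sq (((2 * j + i : ℕ) : ℝ) * p.θ)
  linear_combination (p.lam ^ i) ^ 2 * h1

lemma norm_ring (i j : ℕ) : ‖(p.ring i j).c‖ = p.lam ^ i := by
  have h := p.normSq_ring i j
  have h0 : 0 < p.lam ^ i := pow_pos p.lam_pos i
  rw [normSq_eq_norm_sq] at h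
  have := abs_eq_abs.2 (sq_eq_sq_iff_eq_or_eq_neg.1 h)
  rwa [abs_of_nonneg (norm_nonneg _), abs_of_pos h0] at this

end Par

/-- Two circles whose centres are far from each other are disjoint. -/
lemma disjoint_of_far {A B : Circ} (h : (A.r + B.r) ^ 2 < normSq (A.c - B.c)) :
    Disjoint A.pts B.pts := by
  rw [Set.disjoint_left]
  intro z hA hB
  rw [mem_pts] at hA hB
  have h1 : ‖A.c - B.c‖ ≤ A.r + B.r := by
    calc ‖A.c - B.c‖ = ‖(z - B.c) - (z - A.c)‖ := by congr 1; ring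
      _ ≤ ‖z - B.c‖ + ‖z - A.c‖ := norm_sub_le _ _
      _ = A.r + B.r := by rw [hA, hB]; ring
  rw [normSq_eq_norm_sq] at h
  have h2 := norm_nonneg (A.c - B.c)
  nlinarith [A.pos, B.pos]

/-- A circle deep inside another one is disjoint from it. -/
lemma disjoint_of_inside {A B : Circ} (h : ‖A.c - B.c‖ + A.r < B.r) : Disjoint A.pts B.pts := by
  rw [Set.disjoint_left]
  intro z hA hB
  rw [mem_pts] at hA hB
  have h1 : B.r ≤ ‖A.c - B.c‖ + A.r := by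
    calc B.r = ‖(z - A.c) + (A.c - B.c)‖ := by rw [← hB]; congr 1; ring
      _ ≤ ‖z - A.c‖ + ‖A.c - B.c‖ := norm_add_le _ _
      _ = ‖A.c - B.c‖ + A.r := by rw [hA]; ring
  linarith

namespace Par

variable (p : Par)

/-- Neighbours in the same ring. -/
lemma orth_same (i j : ℕ) : (p.ring i j).Orthogonal (p.ring i (j + 1)) := by
  rw [orthogonal_iff, dist_ring]
  have e : (((2 * j + i : ℕ) : ℝ) - ((2 * (j + 1) + i : ℕ) : ℝ)) * p.θ = -(2 * p.θ) := by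
    push_cast; ring
  rw [e, Real.cos_neg]
  change _ = (p.ρ * p.lam ^ i) ^ 2 + (p.ρ * p.lam ^ i) ^ 2
  rw [mul_pow, p.ρ_sq]
  change _ - _ * p.k = _
  ring

lemma orth_up (i j : ℕ) : (p.ring i j).Orthogonal (p.ring (i + 1) j) := by
  rw [orthogonal_iff, dist_ring]
  have e : (((2 * j + i : ℕ) : ℝ) - ((2 * j + (i + 1) : ℕ) : ℝ)) * p.θ = -p.θ := by
    push_cast; ring
  rw [e, Real.cos_neg]
  change _ = (p.ρ * p.lam ^ i) ^ 2 + (p.ρ * p.lam ^ (i + 1)) ^ 2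
  rw [mul_pow, mul_pow, p.ρ_sq]
  have h := p.rel
  have h2 : 2 * (p.lam ^ i * p.lam ^ (i + 1)) * Real.cos p.θ =
      (p.lam ^ i) ^ 2 * (p.k * (p.lam ^ 2 + 1)) := by rw [h, pow_succ]; ring
  rw [h2, pow_succ]
  ring

lemma orth_up' (i j : ℕ) : (p.ring i (j + 1)).Orthogonal (p.ring (i + 1) j) := by
  rw [orthogonal_iff, dist_ring]
  have e : (((2 * (j + 1) + i : ℕ) : ℝ) - ((2 * j + (i + 1) : ℕ) : ℝ)) * p.θ = p.θ := by
    push_cast; ring
  rw [e]
  change _ = (p.ρ * p.lam ^ i) ^ 2 + (p.ρ * p.lam ^ (i + 1)) ^ 2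
  rw [mul_pow, mul_pow, p.ρ_sq]
  have h := p.rel
  have h2 : 2 * (p.lam ^ i * p.lam ^ (i + 1)) * Real.cos p.θ =
      (p.lam ^ i) ^ 2 * (p.k * (p.lam ^ 2 + 1)) := by rw [h, pow_succ]; ring
  rw [h2, pow_succ]
  ring

lemma orth_con (i j : ℕ) : (p.ring i j).Orthogonal (p.con i) := by
  rw [orthogonal_iff]
  change normSq ((p.ring i j).c - 0) = (p.ρ * p.lam ^ i) ^ 2 + (√p.k * p.lam ^ i) ^ 2
  rw [sub_zero, normSq_ring, mul_pow, mul_pow, p.ρ_sq, Real.sq_sqrt p.k_pos.le]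
  ring

/-- Rings at distance at least two, and far enough. -/
lemma disjoint_far_rings (i j d j' : ℕ) (hd : 2 ≤ d) :
    Disjoint (p.ring i j).pts (p.ring (i + d) j').pts := by
  apply disjoint_of_far
  rw [dist_ring]
  set x := p.lam ^ i with hx
  set y := p.lam ^ (i + d) with hy
  have hx0 : 0 < x := pow_pos p.lam_pos i
  have hy0 : 0 < y := pow_pos p.lam_pos _
  have hyx : p.lam ^ 2 * x ≤ y := by
    rw [hy, pow_add, mul_comm]
    apply mul_le_mul_of_nonneg_left _ hx0.le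
    exact pow_le_pow_right₀ p.lam1.le hd
  have h2 := p.key2
  have hρ1 := p.ρ_lt_one
  have hρ0 := p.ρ_pos
  have h3 : p.ρ * (x + y) < y - x := by
    have : (1 + p.ρ) * x < p.lam ^ 2 * (1 - p.ρ) * x := mul_lt_mul_of_pos_right h2 hx0
    have h4 : p.lam ^ 2 * x * (1 - p.ρ) ≤ y * (1 - p.ρ) :=
      mul_le_mul_of_nonneg_right hyx (by linarith)
    nlinarith
  have h5 := Real.cos_le_one ((((2 * j + i : ℕ) : ℝ) - ((2 * j' + (i + d) : ℕ) : ℝ)) * p.θ)
  change (p.ρ * x + p.ρ * y) ^ 2 < _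
  have h6 : 0 ≤ p.ρ * (x + y) := by positivity
  have h7 : (p.ρ * (x + y)) ^ 2 < (y - x) ^ 2 := by nlinarith
  have h8 : 2 * (x * y) * Real.cos ((((2 * j + i : ℕ) : ℝ) - ((2 * j' + (i + d) : ℕ) : ℝ)) * p.θ)
      ≤ 2 * (x * y) * 1 := mul_le_mul_of_nonneg_left h5 (by positivity)
  nlinarith

/-- A ring circle and a concentric circle of larger index. -/
lemma disjoint_con_out (i j d : ℕ) (hd : 1 ≤ d) :
    Disjoint (p.ring i j).pts (p.con (i + d)).pts := by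
  apply disjoint_of_inside
  change ‖(p.ring i j).c - 0‖ + p.ρ * p.lam ^ i < √p.k * p.lam ^ (i + d)
  rw [sub_zero, norm_ring]
  have hx0 : 0 < p.lam ^ i := pow_pos p.lam_pos i
  have h1 : p.lam ≤ p.lam ^ d := by
    calc p.lam = p.lam ^ 1 := (pow_one _).symm
      _ ≤ _ := pow_le_pow_right₀ p.lam1.le hd
  have h2 := p.key4
  have h3 : 0 ≤ √p.k := Real.sqrt_nonneg _
  calc p.lam ^ i + p.ρ * p.lam ^ i = (1 + p.ρ) * p.lam ^ i := by ring
    _ < p.lam * √p.k * p.lam ^ i := mul_lt_mul_of_pos_right h2 hx0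
    _ ≤ p.lam ^ d * √p.k * p.lam ^ i := by gcongr
    _ = √p.k * p.lam ^ (i + d) := by rw [pow_add]; ring

/-- A ring circle and a concentric circle of smaller index. -/
lemma disjoint_con_in (i j d : ℕ) (hd : 1 ≤ d) :
    Disjoint (p.ring (i + d) j).pts (p.con i).pts := by
  apply disjoint_of_far
  change (p.ρ * p.lam ^ (i + d) + √p.k * p.lam ^ i) ^ 2 < normSq ((p.ring (i + d) j).c - 0)
  rw [sub_zero, normSq_ring]
  have hx0 : 0 < p.lam ^ i := pow_pos p.lam_pos i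
  have hρ0 := p.ρ_pos
  have hρ1 := p.ρ_lt_one
  have h1 : p.lam ≤ p.lam ^ d := by
    calc p.lam = p.lam ^ 1 := (pow_one _).symm
      _ ≤ _ := pow_le_pow_right₀ p.lam1.le hd
  have h2 := p.key3
  have h3 : 0 ≤ √p.k := Real.sqrt_nonneg _
  have hl := p.lam_pos
  have h4 : p.ρ * p.lam ^ (i + d) + √p.k * p.lam ^ i < p.lam ^ (i + d) := by
    have : √p.k * p.lam ^ i < p.lam ^ d * (1 - p.ρ) * p.lam ^ i := by
      apply mul_lt_mul_of_pos_right _ hx0
      calc √p.k < p.lam * (1 - p.ρ) := h2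
        _ ≤ p.lam ^ d * (1 - p.ρ) := mul_le_mul_of_nonneg_right h1 (by linarith)
    rw [pow_add]
    nlinarith
  have h5 : 0 ≤ p.ρ * p.lam ^ (i + d) + √p.k * p.lam ^ i := by positivity
  nlinarith

lemma disjoint_con_con (i d : ℕ) (hd : 1 ≤ d) : Disjoint (p.con i).pts (p.con (i + d)).pts := by
  apply disjoint_of_inside
  change ‖(0 : ℂ) - 0‖ + √p.k * p.lam ^ i < √p.k * p.lam ^ (i + d)
  rw [sub_zero, norm_zero, zero_add]
  apply mul_lt_mul_of_pos_left _ (Real.sqrt_pos.2 p.k_pos)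
  exact pow_lt_pow_right₀ p.lam1 (by omega)

end Par

end Pool.Agent.Helper6.Orth
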