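import Pool.Agent.Helper6.Orth.Face

/-!
Adding a small circle of the pencil around each point of a set `W` of crossing points gives an
arrangement with `4 |W|` triangular faces inside the new circles.
-/

namespace Pool.Agent.Helper6.Orth

open Complex Set Filter Topology

lemma exists_cross {S : Finset Circ} (hS : IsArrangement S) {P : ℂ} (hP : P ∈ crossings S) :
    ∃ X : Cross, X.P = P ∧ X.A ∈ S ∧ X.B ∈ S := by
  obtain ⟨A, hA, B, hB, hne, zA, zB⟩ := hP
  rcases hS A hA B hB hne with h | h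
  · exact absurd zB (Set.disjoint_left.1 h zA)
  · obtain ⟨⟨p, q, hpq, hset⟩, -⟩ := id h
    have hp : p ∈ A.pts ∩ B.pts := by rw [hset]; simp
    have hq : q ∈ A.pts ∩ B.pts := by rw [hset]; simp
    have hPm : P ∈ ({p, q} : Set ℂ) := by rw [← hset]; exact ⟨zA, zB⟩
    rcases hPm with e | e
    · exact ⟨⟨A, B, p, q, hpq, h, hp.1, hp.2, hq.1, hq.2⟩, e.symm, hA, hB⟩
    · exact ⟨⟨A, B, q, p, hpq.symm, h, hq.1, hq.2, hp.1, hp.2⟩, e.symm, hA, hB⟩

lemma eventually_small (X : Cross) {ε : ℝ} (hε : 0 < ε) :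
    ∀ᶠ κ in 𝓝[>] (0 : ℝ), ∀ z : ℂ, ‖z - X.P‖ ≤ κ * ‖z - X.Q‖ → ‖z - X.P‖ < ε := by
  have hPQ : 0 < ‖X.P - X.Q‖ := norm_pos_iff.2 (sub_ne_zero.2 X.ne)
  have h1 : ∀ᶠ κ in 𝓝[>] (0 : ℝ), κ < min (1 / 2) (ε / (2 * ‖X.P - X.Q‖)) := by
    have hpos : 0 < min (1 / 2) (ε / (2 * ‖X.P - X.Q‖)) := by positivity
    exact (isOpen_Iio.mem_nhds hpos : Iio _ ∈ 𝓝 (0 : ℝ)) |> fun h => nhdsWithin_le_nhds h
  filter_upwards [h1, self_mem_nhdsWithin] with κ hκ h0 z hz
  have h0' : (0 : ℝ) < κ := h0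
  have hκ1 : κ < 1 / 2 := lt_of_lt_of_le hκ (min_le_left _ _)
  have hκ2 : κ < ε / (2 * ‖X.P - X.Q‖) := lt_of_lt_of_le hκ (min_le_right _ _)
  have h2 : ‖z - X.Q‖ ≤ ‖z - X.P‖ + ‖X.P - X.Q‖ := by
    calc ‖z - X.Q‖ = ‖(z - X.P) + (X.P - X.Q)‖ := by congr 1; ring
      _ ≤ _ := norm_add_le _ _
  have h3 : ‖z - X.P‖ ≤ κ * ‖z - X.P‖ + κ * ‖X.P - X.Q‖ := by
    calc ‖z - X.P‖ ≤ κ * ‖z - X.Q‖ := hz
      _ ≤ κ * (‖z - X.P‖ + ‖X.P - X.Q‖) := by gcongr
      _ = _ := by ring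
  have h4 : κ * ‖z - X.P‖ ≤ 1 / 2 * ‖z - X.P‖ :=
    mul_le_mul_of_nonneg_right hκ1.le (norm_nonneg _)
  rw [lt_div_iff₀ (by positivity)] at hκ2
  linarith

/-- The closed discs of the pencil circles around the points of `W` are small enough. -/
structure Small (S : Finset Circ) {ι : Type} (X : ι → Cross) (κ : ℝ) : Prop where
  c1 : ∀ i, ∀ C ∈ S, C ≠ (X i).A → C ≠ (X i).B → ∀ z, ‖z - (X i).P‖ ≤ κ * ‖z - (X i).Q‖ → z ∉ C.pts
  c2 : ∀ i j, i ≠ j → ∀ z, ‖z - (X i).P‖ ≤ κ * ‖z - (X i).Q‖ → ¬ ‖z - (X j).P‖ ≤ κ * ‖z - (X j).Q‖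

lemma exists_small {S : Finset Circ} (hS : IsArrangement S) {ι : Type} [Finite ι] (X : ι → Cross)
    (hA : ∀ i, (X i).A ∈ S) (hB : ∀ i, (X i).B ∈ S)
    (hinj : Function.Injective fun i => (X i).P) :
    ∃ κ : ℝ, 0 < κ ∧ κ < 1 ∧ Small S X κ := by
  have e1 : ∀ᶠ κ in 𝓝[>] (0 : ℝ), ∀ i, ∀ C ∈ S, C ≠ (X i).A → C ≠ (X i).B →
      ∀ z, ‖z - (X i).P‖ ≤ κ * ‖z - (X i).Q‖ → z ∉ C.pts := by
    rw [eventually_all]
    intro i
    rw [eventually_all_finset]
    intro C hC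
    by_cases hCA : C = (X i).A
    · exact Eventually.of_forall fun κ h => absurd hCA h
    by_cases hCB : C = (X i).B
    · exact Eventually.of_forall fun κ _ h => absurd hCB h
    have hP : (X i).P ∉ C.pts := by
      intro h
      rcases crossing_unique hS (hA i) (hB i) hC (X i).orth.ne (X i).PA (X i).PB h with h | h
      · exact hCA h
      · exact hCB h
    obtain ⟨ε, hε, hball⟩ := Metric.isOpen_iff.1 (isClosed_pts C).isOpen_compl _ hP
    filter_upwards [eventually_small (X i) hε] with κ hκ _ _ z hz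
    exact hball (by rw [Metric.mem_ball, dist_eq_norm]; exact hκ z hz)
  have e2 : ∀ᶠ κ in 𝓝[>] (0 : ℝ), ∀ i j, i ≠ j → ∀ z, ‖z - (X i).P‖ ≤ κ * ‖z - (X i).Q‖ →
      ¬ ‖z - (X j).P‖ ≤ κ * ‖z - (X j).Q‖ := by
    rw [eventually_all]
    intro i
    rw [eventually_all]
    intro j
    by_cases hij : i = j
    · exact Eventually.of_forall fun κ h => absurd hij h
    have hne : (X i).P - (X j).P ≠ 0 := sub_ne_zero.2 fun h => hij (hinj h)
    have hd : 0 < ‖(X i).P - (X j).P‖ / 2 := by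
      have := norm_pos_iff.2 hne
      positivity
    filter_upwards [eventually_small (X i) hd, eventually_small (X j) hd] with κ h1 h2 _ z hz1 hz2
    have h3 := h1 z hz1
    have h4 := h2 z hz2
    have h5 : ‖(X i).P - (X j).P‖ ≤ ‖z - (X j).P‖ + ‖z - (X i).P‖ := by
      calc ‖(X i).P - (X j).P‖ = ‖(z - (X j).P) - (z - (X i).P)‖ := by congr 1; ring
        _ ≤ _ := norm_sub_le _ _
    linarith
  have e3 : ∀ᶠ κ in 𝓝[>] (0 : ℝ), κ < 1 :=
    nhdsWithin_le_nhds (isOpen_Iio.mem_nhds (by norm_num : (0 : ℝ) < 1))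
  have e4 : ∀ᶠ κ in 𝓝[>] (0 : ℝ), 0 < κ := self_mem_nhdsWithin
  obtain ⟨κ, h1, h2, h3, h4⟩ := (e1.and (e2.and (e3.and e4))).exists
  exact ⟨κ, h4, h3, h1, h2⟩

/-- The sign given by a boolean. -/
def sgn (b : Bool) : ℝ := if b then 1 else -1

lemma sgn_ne (b : Bool) : sgn b ≠ 0 := by cases b <;> simp [sgn]

lemma sgn_inj {a b : Bool} {x : ℝ} (ha : 0 < sgn a * x) (hb : 0 < sgn b * x) : a = b := by
  cases a <;> cases b <;> simp [sgn] at * <;> linarith

open Classical in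
/-- Transfer theorem. -/
theorem transfer {S : Finset Circ} (hS : IsArrangement S) (W : Finset ℂ)
    (hW : (W : Set ℂ) ⊆ crossings S) :
    ∃ S' : Finset Circ, IsArrangement S' ∧ S'.card = S.card + W.card ∧
      ∃ T : Finset (Set ℂ), (∀ F ∈ T, IsTriangularFace S' F) ∧ T.card = 4 * W.card := by
  choose X hXP hXA hXB using fun i : W => exists_cross hS (hW i.2)
  have hinj : Function.Injective fun i => (X i).P := by
    intro i j h
    simp only [hXP] at h
    exact Subtype.ext h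
  obtain ⟨κ, h0, h1, hsm⟩ := exists_small hS X hXA hXB hinj
  set D : W → Circ := fun i => (X i).pen κ h0 h1 with hD
  have hDmem : ∀ i z, z ∈ (D i).pts → ‖z - (X i).P‖ ≤ κ * ‖z - (X i).Q‖ := fun i z hz =>
    ((Cross.mem_pen h0 h1).1 hz).le
  have hDinj : Function.Injective D := by
    intro i j h
    by_contra hij
    obtain ⟨z, hz⟩ := pts_nonempty (D i)
    have hz' : z ∈ (D j).pts := h ▸ hz
    exact hsm.c2 i j hij z (hDmem i z hz) (hDmem j z hz')
  have hDS : ∀ i, D i ∉ S := by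
    intro i h
    obtain ⟨z, hz⟩ := pts_nonempty (D i)
    by_cases hA : D i = (X i).A
    · exact (Cross.orth_pen_A (X := X i) h0 h1).ne hA
    by_cases hB : D i = (X i).B
    · exact (Cross.orth_pen_B (X := X i) h0 h1).ne hB
    exact hsm.c1 i _ h hA hB z (hDmem i z hz) hz
  set S' : Finset Circ := S ∪ Finset.univ.image D with hS'
  have hmem : ∀ C, C ∈ S' ↔ C ∈ S ∨ ∃ i, D i = C := by
    intro C
    rw [hS', Finset.mem_union, Finset.mem_image]
    simp
  have hSD : ∀ C ∈ S, ∀ i, Disjoint C.pts (D i).pts ∨ C.Orthogonal (D i) := by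
    intro C hC i
    by_cases hA : C = (X i).A
    · right; rw [hA]; exact (Cross.orth_pen_A h0 h1).symm
    by_cases hB : C = (X i).B
    · right; rw [hB]; exact (Cross.orth_pen_B h0 h1).symm
    left
    rw [Set.disjoint_left]
    intro z hzC hzD
    exact hsm.c1 i C hC hA hB z (hDmem i z hzD) hzC
  have harr : IsArrangement S' := by
    intro A hA B hB hne
    rcases (hmem A).1 hA with hA | ⟨i, rfl⟩ <;> rcases (hmem B).1 hB with hB | ⟨j, rfl⟩
    · exact hS A hA B hB hne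
    · exact hSD A hA j
    · rcases hSD B hB i with h | h
      · exact Or.inl h.symm
      · exact Or.inr h.symm
    · left
      rw [Set.disjoint_left]
      intro z hz1 hz2
      exact hsm.c2 i j (fun h => hne (by rw [h])) z (hDmem i z hz1) (hDmem j z hz2)
  have hloc : ∀ i, Cross.Local (X i) κ h0 h1 S' := by
    intro i
    refine ⟨harr, (hmem _).2 (Or.inl (hXA i)), (hmem _).2 (Or.inl (hXB i)),
      (hmem _).2 (Or.inr ⟨i, rfl⟩), ?_⟩
    intro C hC hCA hCB hCD z hz hzC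
    rcases (hmem C).1 hC with h | ⟨j, rfl⟩
    · exact hsm.c1 i C h hCA hCB z hz hzC
    · refine hsm.c2 i j (fun h => hCD (by rw [h])) z hz (hDmem j z hzC)
  refine ⟨S', harr, ?_, ?_⟩
  · rw [hS', Finset.card_union_of_disjoint, Finset.card_image_of_injective _ hDinj,
      Finset.card_univ, Fintype.card_coe]
    rw [Finset.disjoint_left]
    intro C hC hC'
    obtain ⟨i, -, rfl⟩ := Finset.mem_image.1 hC'
    exact hDS i hC
  · let f : W × Bool × Bool → Set ℂ := fun x => (X x.1).face κ (sgn x.2.1) (sgn x.2.2)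
    have hf : Function.Injective f := by
      rintro ⟨i, a, b⟩ ⟨j, c, d⟩ h
      obtain ⟨z, hz⟩ := Cross.face_nonempty (X := X i) h0 h1 (sgn_ne a) (sgn_ne b)
      have h' : (X i).face κ (sgn a) (sgn b) = (X j).face κ (sgn c) (sgn d) := h
      have hz' : z ∈ (X j).face κ (sgn c) (sgn d) := h' ▸ hz
      by_cases hij : i = j
      · subst hij
        rw [sgn_inj hz.2.1 hz'.2.1, sgn_inj hz.2.2 hz'.2.2]
      · exact absurd hz'.1.le (hsm.c2 i j hij z hz.1.le)
    refine ⟨Finset.univ.image f, ?_, ?_⟩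
    · intro F hF
      obtain ⟨⟨i, a, b⟩, -, rfl⟩ := Finset.mem_image.1 hF
      exact Cross.isTriangularFace h0 h1 (hloc i) (sgn_ne a) (sgn_ne b)
    · rw [Finset.card_image_of_injective _ hf, Finset.card_univ, Fintype.card_prod,
        Fintype.card_coe]
      simp
      ring

end Pool.Agent.Helper6.Orth
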