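import Pool.Agent.Helper6.Orth.Base
import Pool.Agent.Helper6.Orth.Transfer

/-!
The base arrangement: non-neighbouring ring circles are disjoint; count of the crossing points.
-/

namespace Pool.Agent.Helper6.Orth

open Complex

lemma cos_le_cos_of_mem {x a : ℝ} (ha : 0 ≤ a) (h1 : a ≤ |x|) (h2 : |x| ≤ 2 * Real.pi - a) :
    Real.cos x ≤ Real.cos a := by
  rw [← Real.cos_abs x]
  by_cases h : |x| ≤ Real.pi
  · exact Real.cos_le_cos_of_nonneg_of_le_pi ha h h1
  · rw [← Real.cos_two_pi_sub]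
    exact Real.cos_le_cos_of_nonneg_of_le_pi ha (by linarith) (by linarith)

namespace Par

variable (p : Par) {m : ℕ} (hm : p.θ * m = Real.pi)

include hm

lemma disjoint_same (i j d : ℕ) (hd : 2 ≤ d) (hj : j + d + 2 ≤ m) :
    Disjoint (p.ring i j).pts (p.ring i (j + d)).pts := by
  apply disjoint_of_far
  rw [dist_ring]
  have e : (((2 * j + i : ℕ) : ℝ) - ((2 * (j + d) + i : ℕ) : ℝ)) * p.θ = -(2 * d * p.θ) := by
    push_cast; ring
  rw [e, Real.cos_neg]
  have h0 := p.θ0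
  have hd' : (2 : ℝ) ≤ d := by exact_mod_cast hd
  have hj' : (d : ℝ) + 2 ≤ m := by exact_mod_cast (by omega : d + 2 ≤ m)
  have hc : Real.cos (2 * d * p.θ) ≤ Real.cos (2 * (2 * p.θ)) := by
    have h3 : 0 ≤ 2 * d * p.θ := by positivity
    apply cos_le_cos_of_mem (by positivity)
    · rw [abs_of_nonneg h3]; nlinarith
    · rw [abs_of_nonneg h3]; nlinarith
  rw [Real.cos_two_mul (2 * p.θ)] at hc
  change _ ≤ 2 * p.k ^ 2 - 1 at hc
  change (p.ρ * p.lam ^ i + p.ρ * p.lam ^ i) ^ 2 < _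
  have hx : 0 < (p.lam ^ i) ^ 2 := pow_pos (pow_pos p.lam_pos i) 2
  have hk := p.k_pos
  have hk1 := p.k_lt_one
  have h4 : (p.ρ * p.lam ^ i + p.ρ * p.lam ^ i) ^ 2 = 4 * (1 - p.k) * (p.lam ^ i) ^ 2 := by
    rw [← p.ρ_sq]; ring
  rw [h4]
  have h5 : 2 * (p.lam ^ i * p.lam ^ i) * Real.cos (2 * d * p.θ) ≤
      2 * (p.lam ^ i * p.lam ^ i) * (2 * p.k ^ 2 - 1) :=
    mul_le_mul_of_nonneg_left hc (by nlinarith)
  have h6 : (p.lam ^ i) ^ 2 + (p.lam ^ i) ^ 2 - 2 * (p.lam ^ i * p.lam ^ i) * (2 * p.k ^ 2 - 1) =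
      4 * (1 - p.k ^ 2) * (p.lam ^ i) ^ 2 := by ring
  have h7 : 4 * (1 - p.k) * (p.lam ^ i) ^ 2 < 4 * (1 - p.k ^ 2) * (p.lam ^ i) ^ 2 := by
    apply mul_lt_mul_of_pos_right _ hx
    nlinarith
  linarith

lemma disjoint_next (i j j' : ℕ) (hj : j + 2 ≤ m) (hj' : j' + 2 ≤ m)
    (h : j + 1 ≤ j' ∨ j' + 2 ≤ j) : Disjoint (p.ring i j).pts (p.ring (i + 1) j').pts := by
  apply disjoint_of_far
  rw [dist_ring]
  have e : (((2 * j + i : ℕ) : ℝ) - ((2 * j' + (i + 1) : ℕ) : ℝ)) * p.θ =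
      (2 * ((j : ℝ) - j') - 1) * p.θ := by
    push_cast; ring
  rw [e]
  have h0 := p.θ0
  have ha : (j : ℝ) + 2 ≤ m := by exact_mod_cast hj
  have hb : (j' : ℝ) + 2 ≤ m := by exact_mod_cast hj'
  have hj0 : (0 : ℝ) ≤ j := Nat.cast_nonneg j
  have hj0' : (0 : ℝ) ≤ j' := Nat.cast_nonneg j'
  have hc : Real.cos ((2 * ((j : ℝ) - j') - 1) * p.θ) ≤ Real.cos (3 * p.θ) := by
    rcases h with h | h
    · have h' : (j : ℝ) + 1 ≤ j' := by exact_mod_cast h
      have h3 : (2 * ((j : ℝ) - j') - 1) * p.θ ≤ 0 :=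
        mul_nonpos_of_nonpos_of_nonneg (by linarith) h0.le
      apply cos_le_cos_of_mem (by positivity)
      · rw [abs_of_nonpos h3]; nlinarith
      · rw [abs_of_nonpos h3]; nlinarith
    · have h' : (j' : ℝ) + 2 ≤ j := by exact_mod_cast h
      have h3 : 0 ≤ (2 * ((j : ℝ) - j') - 1) * p.θ :=
        mul_nonneg (by linarith) h0.le
      apply cos_le_cos_of_mem (by positivity)
      · rw [abs_of_nonneg h3]; nlinarith
      · rw [abs_of_nonneg h3]; nlinarith
  rw [Real.cos_three_mul] at hc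
  change (p.ρ * p.lam ^ i + p.ρ * p.lam ^ (i + 1)) ^ 2 < _
  have hx : 0 < (p.lam ^ i) ^ 2 := pow_pos (pow_pos p.lam_pos i) 2
  have hl := p.lam_pos
  have hrel := p.rel
  have hk := p.k_eq
  have hc1 := p.cos_lt_one
  have hc2 := p.half_lt_cos
  rw [pow_succ p.lam i]
  have h4 : (p.ρ * p.lam ^ i + p.ρ * (p.lam ^ i * p.lam)) ^ 2 =
      (1 - p.k) * (1 + p.lam) ^ 2 * (p.lam ^ i) ^ 2 := by
    rw [← p.ρ_sq]; ring
  rw [h4]
  set c := Real.cos p.θ with hcdef
  set C := Real.cos ((2 * ((j : ℝ) - j') - 1) * p.θ) with hC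
  have h5 : (p.lam ^ i) ^ 2 + (p.lam ^ i * p.lam) ^ 2 - 2 * (p.lam ^ i * (p.lam ^ i * p.lam)) * C =
      (1 + p.lam ^ 2 - 2 * p.lam * C) * (p.lam ^ i) ^ 2 := by ring
  rw [h5]
  apply mul_lt_mul_of_pos_right _ hx
  have h6 : 2 * p.lam * C ≤ 2 * p.lam * (4 * c ^ 3 - 3 * c) :=
    mul_le_mul_of_nonneg_left hc (by positivity)
  have h7 : 0 < 2 * p.lam * (2 * (1 - c ^ 2) * (2 * c - 1)) := by
    have : 0 < 1 - c ^ 2 := by nlinarith
    have : 0 < 2 * c - 1 := by linarith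
    positivity
  have h8 : (1 + p.lam ^ 2 - 2 * p.lam * (4 * c ^ 3 - 3 * c)) - (1 - p.k) * (1 + p.lam) ^ 2 =
      2 * p.lam * (2 * (1 - c ^ 2) * (2 * c - 1)) := by
    have : (1 + p.lam ^ 2 - 2 * p.lam * (4 * c ^ 3 - 3 * c)) - (1 - p.k) * (1 + p.lam) ^ 2 =
      p.k * (p.lam ^ 2 + 1) + 2 * p.lam * p.k - 2 * p.lam - 2 * p.lam * (4 * c ^ 3 - 3 * c) := by ring
    rw [this, hrel, hk]
    ring
  linarith

/-- Different ring circles are disjoint or orthogonal. -/
lemma ring_ring (i j i' j' : ℕ) (hj : j + 2 ≤ m) (hj' : j' + 2 ≤ m) (hne : (i, j) ≠ (i', j')) :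
    Disjoint (p.ring i j).pts (p.ring i' j').pts ∨ (p.ring i j).Orthogonal (p.ring i' j') := by
  wlog hii : i ≤ i' generalizing i j i' j' with H
  · rcases H i' j' i j hj' hj (Ne.symm hne) (by omega) with h | h
    · exact Or.inl h.symm
    · exact Or.inr h.symm
  obtain ⟨d, rfl⟩ := Nat.exists_eq_add_of_le hii
  rcases Nat.lt_or_ge d 2 with hd | hd
  · interval_cases d
    · -- the same ring
      rw [add_zero] at *
      wlog hjj : j ≤ j' generalizing j j' with H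
      · rcases H j' j hj' hj (Ne.symm hne) (by omega) with h | h
        · exact Or.inl h.symm
        · exact Or.inr h.symm
      obtain ⟨e, rfl⟩ := Nat.exists_eq_add_of_le hjj
      rcases Nat.lt_or_ge e 2 with he | he
      · interval_cases e
        · exact absurd rfl hne
        · exact Or.inr (p.orth_same i j)
      · exact Or.inl (p.disjoint_same hm i j e he (by omega))
    · by_cases h1 : j' = j
      · subst h1; exact Or.inr (p.orth_up i j')
      by_cases h2 : j = j' + 1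
      · subst h2; exact Or.inr (p.orth_up' i j')
      exact Or.inl (p.disjoint_next hm i j j' hj hj' (by omega))
  · exact Or.inl (p.disjoint_far_rings i j d j' hd)

omit hm in
lemma ring_con (i j i' : ℕ) :
    Disjoint (p.ring i j).pts (p.con i').pts ∨ (p.ring i j).Orthogonal (p.con i') := by
  rcases lt_trichotomy i i' with h | h | h
  · obtain ⟨d, rfl⟩ := Nat.exists_eq_add_of_lt h
    exact Or.inl (p.disjoint_con_out i j (d + 1) (by omega))
  · subst h; exact Or.inr (p.orth_con i j)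
  · obtain ⟨d, rfl⟩ := Nat.exists_eq_add_of_lt h
    exact Or.inl (p.disjoint_con_in i' j (d + 1) (by omega))

omit hm in
lemma con_con (i i' : ℕ) (h : i ≠ i') : Disjoint (p.con i).pts (p.con i').pts := by
  rcases lt_or_gt_of_ne h with h | h
  · obtain ⟨d, rfl⟩ := Nat.exists_eq_add_of_lt h
    exact p.disjoint_con_con i (d + 1) (by omega)
  · obtain ⟨d, rfl⟩ := Nat.exists_eq_add_of_lt h
    exact (p.disjoint_con_con i' (d + 1) (by omega)).symm

/-- The circles with their indices. -/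
noncomputable def circ : (ℕ × ℕ) ⊕ ℕ → Circ
  | Sum.inl x => p.ring x.1 x.2
  | Sum.inr i => p.con i

/-- Valid indices. -/
def ok (m : ℕ) : (ℕ × ℕ) ⊕ ℕ → Prop
  | Sum.inl x => x.2 + 2 ≤ m
  | Sum.inr _ => True

lemma circ_circ (x y : (ℕ × ℕ) ⊕ ℕ) (hx : ok m x) (hy : ok m y) (hne : x ≠ y) :
    Disjoint (p.circ x).pts (p.circ y).pts ∨ (p.circ x).Orthogonal (p.circ y) := by
  rcases x with ⟨i, j⟩ | i <;> rcases y with ⟨i', j'⟩ | i'
  · exact p.ring_ring hm i j i' j' hx hy (fun h => hne (by rw [h]))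
  · exact p.ring_con i j i'
  · rcases p.ring_con i' j' i with h | h
    · exact Or.inl h.symm
    · exact Or.inr h.symm
  · exact Or.inl (p.con_con i i' (fun h => hne (by rw [h])))

lemma circ_inj {x y : (ℕ × ℕ) ⊕ ℕ} (hx : ok m x) (hy : ok m y) (h : p.circ x = p.circ y) :
    x = y := by
  by_contra hne
  rcases p.circ_circ hm x y hx hy hne with h1 | h1
  · rw [h] at h1
    obtain ⟨z, hz⟩ := pts_nonempty (p.circ y)
    exact Set.disjoint_left.1 h1 hz hz
  · exact h1.ne h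

end Par

/-- Parameters exist. -/
lemma exists_par (m : ℕ) (hm : 5 ≤ m) : ∃ p : Par, p.θ * m = Real.pi := by
  have hm' : (5 : ℝ) ≤ m := by exact_mod_cast hm
  have hpi := Real.pi_pos
  set θ := Real.pi / m with hθ
  have h0 : 0 < θ := by positivity
  have h1 : θ < Real.pi / 4 := by
    rw [hθ]
    apply div_lt_div_of_pos_left hpi (by norm_num) (by linarith)
  set k := Real.cos (2 * θ) with hk
  set c := Real.cos θ with hc
  have hk0 : 0 < k := by
    apply Real.cos_pos_of_mem_Ioo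
    constructor <;> linarith
  have hck : k < c := Real.cos_lt_cos_of_nonneg_of_le_pi h0.le (by linarith) (by linarith)
  have hd : 0 < c ^ 2 - k ^ 2 := by nlinarith
  set s := √(c ^ 2 - k ^ 2) with hs
  have hs2 : s ^ 2 = c ^ 2 - k ^ 2 := Real.sq_sqrt hd.le
  have hs0 : 0 < s := Real.sqrt_pos.2 hd
  refine ⟨⟨θ, (c + s) / k, h0, h1, ?_, ?_⟩, ?_⟩
  · rw [lt_div_iff₀ hk0]; linarith
  · change k * (((c + s) / k) ^ 2 + 1) = 2 * ((c + s) / k) * c
    field_simp
    nlinarith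
  · change θ * m = Real.pi
    rw [hθ]; field_simp

/-- Sets of crossing points of prescribed size. -/
lemma exists_W {S : Finset Circ} (hS : IsArrangement S) {J : Type} [Fintype J]
    (a b : J → Circ) (ha : ∀ x, a x ∈ S) (hb : ∀ x, b x ∈ S) (hab : ∀ x, (a x).Orthogonal (b x))
    (hinj : ∀ x y, x ≠ y → ¬ (a x = a y ∧ b x = b y) ∧ ¬ (a x = b y ∧ b x = a y))
    (m : ℕ) (hmJ : m ≤ Fintype.card J) :
    ∃ W : Finset ℂ, (W : Set ℂ) ⊆ crossings S ∧ W.card = 2 * m := by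
  classical
  have hex : ∀ x, ∃ w : Finset ℂ, (w : Set ℂ) = (a x).pts ∩ (b x).pts ∧ w.card = 2 := by
    intro x
    obtain ⟨⟨p, q, hpq, h⟩, -⟩ := hab x
    exact ⟨{p, q}, by rw [h]; simp, Finset.card_pair hpq⟩
  choose w hw hw2 using hex
  obtain ⟨E, -, hE⟩ := Finset.exists_subset_card_eq (s := (Finset.univ : Finset J)) (n := m)
    (by rwa [Finset.card_univ])
  refine ⟨E.biUnion w, ?_, ?_⟩
  · intro z hz
    rw [Finset.mem_coe, Finset.mem_biUnion] at hz
    obtain ⟨x, -, hx⟩ := hz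
    have hx' : z ∈ (w x : Set ℂ) := hx
    rw [hw] at hx'
    exact ⟨a x, ha x, b x, hb x, (hab x).ne, hx'.1, hx'.2⟩
  · rw [Finset.card_biUnion]
    · rw [Finset.sum_congr rfl fun x _ => hw2 x, Finset.sum_const, hE, smul_eq_mul, mul_comm]
    · intro x _ y _ hxy
      change Disjoint (w x) (w y)
      rw [Finset.disjoint_left]
      intro z hzx hzy
      have h1 : z ∈ (w x : Set ℂ) := hzx
      have h2 : z ∈ (w y : Set ℂ) := hzy
      rw [hw] at h1 h2
      have u1 := crossing_unique hS (ha x) (hb x) (ha y) (hab x).ne h1.1 h1.2 h2.1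
      have u2 := crossing_unique hS (ha x) (hb x) (hb y) (hab x).ne h1.1 h1.2 h2.2
      rcases u1 with u1 | u1 <;> rcases u2 with u2 | u2
      · exact (hab y).ne (u1.trans u2.symm)
      · exact (hinj x y hxy).1 ⟨u1.symm, u2.symm⟩
      · exact (hinj x y hxy).2 ⟨u2.symm, u1.symm⟩
      · exact (hab y).ne (u1.trans u2.symm)

/-- The index type of the orthogonal pairs (`q + 1` rings of `q + 1` circles). -/
abbrev JJ (q : ℕ) : Type :=
  (Fin (q + 1) × Fin q) ⊕ (Fin q × Fin (q + 1)) ⊕ (Fin q × Fin q) ⊕ (Fin (q + 1) × Fin (q + 1))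

lemma card_JJ (q : ℕ) : Fintype.card (JJ q) = (2 * q + 1) ^ 2 := by
  simp only [JJ, Fintype.card_sum, Fintype.card_prod, Fintype.card_fin]
  ring

/-- First circle of the pair. -/
def ja {q : ℕ} : JJ q → (ℕ × ℕ) ⊕ ℕ
  | Sum.inl x => Sum.inl (x.1, x.2)
  | Sum.inr (Sum.inl x) => Sum.inl (x.1, x.2)
  | Sum.inr (Sum.inr (Sum.inl x)) => Sum.inl (x.1, x.2 + 1)
  | Sum.inr (Sum.inr (Sum.inr x)) => Sum.inl (x.1, x.2)

/-- Second circle of the pair. -/
def jb {q : ℕ} : JJ q → (ℕ × ℕ) ⊕ ℕ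
  | Sum.inl x => Sum.inl (x.1, x.2 + 1)
  | Sum.inr (Sum.inl x) => Sum.inl (x.1 + 1, x.2)
  | Sum.inr (Sum.inr (Sum.inl x)) => Sum.inl (x.1 + 1, x.2)
  | Sum.inr (Sum.inr (Sum.inr x)) => Sum.inr x.1

lemma jab_inj {q : ℕ} (x y : JJ q) (hxy : x ≠ y) :
    ¬ (ja x = ja y ∧ jb x = jb y) ∧ ¬ (ja x = jb y ∧ jb x = ja y) := by
  rcases x with ⟨i, j⟩ | ⟨i, j⟩ | ⟨i, j⟩ | ⟨i, j⟩ <;>
    rcases y with ⟨i', j'⟩ | ⟨i', j'⟩ | ⟨i', j'⟩ | ⟨i', j'⟩ <;>
    simp only [ja, jb, ne_eq, Sum.inl.injEq, Sum.inr.injEq, Prod.mk.injEq, reduceCtorEq, not_false_eq_true, and_false, false_and, Fin.ext_iff] at hxy ⊢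
  all_goals first | (constructor <;> omega) | (exact ⟨fun h => hxy h.1, trivial⟩) | omega

/-- The main construction. -/
theorem construction (q L m : ℕ) (hq : 3 ≤ q) (hL : q + 1 ≤ L) (hm : m ≤ (2 * q + 1) ^ 2) :
    ∃ S : Finset Circ, IsArrangement S ∧ S.card = (q + 1) ^ 2 + L + 2 * m ∧
      ∃ T : Finset (Set ℂ), (∀ F ∈ T, IsTriangularFace S F) ∧ T.card = 8 * m := by
  classical
  obtain ⟨p, hp⟩ := exists_par (q + 2) (by omega)
  -- the index set of the base arrangement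
  set I : Finset ((ℕ × ℕ) ⊕ ℕ) :=
    (Finset.range (q + 1) ×ˢ Finset.range (q + 1)).disjSum (Finset.range L) with hI
  have hok : ∀ x ∈ I, Par.ok (q + 2) x := by
    intro x hx
    rcases x with ⟨i, j⟩ | i
    · simp only [hI, Finset.inl_mem_disjSum, Finset.mem_product, Finset.mem_range] at hx
      change j + 2 ≤ q + 2
      omega
    · trivial
  set S := I.image p.circ with hSdef
  have hinj : Set.InjOn p.circ I := fun x hx y hy h => p.circ_inj hp (hok x hx) (hok y hy) h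
  have hS : IsArrangement S := by
    intro A hA B hB hne
    obtain ⟨x, hx, rfl⟩ := Finset.mem_image.1 hA
    obtain ⟨y, hy, rfl⟩ := Finset.mem_image.1 hB
    exact p.circ_circ hp x y (hok x hx) (hok y hy) fun h => hne (by rw [h])
  have hcard : S.card = (q + 1) ^ 2 + L := by
    rw [hSdef, Finset.card_image_of_injOn hinj, hI, Finset.card_disjSum, Finset.card_product,
      Finset.card_range, Finset.card_range, sq]
  have hja : ∀ x : JJ q, ja x ∈ I := by
    intro x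
    rcases x with ⟨i, j⟩ | ⟨i, j⟩ | ⟨i, j⟩ | ⟨i, j⟩ <;>
      simp only [hI, ja, Finset.inl_mem_disjSum, Finset.mem_product, Finset.mem_range] <;>
      constructor <;> omega
  have hjb : ∀ x : JJ q, jb x ∈ I := by
    intro x
    rcases x with ⟨i, j⟩ | ⟨i, j⟩ | ⟨i, j⟩ | ⟨i, j⟩
    · simp only [hI, jb, Finset.inl_mem_disjSum, Finset.mem_product, Finset.mem_range]
      constructor <;> omega
    · simp only [hI, jb, Finset.inl_mem_disjSum, Finset.mem_product, Finset.mem_range]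
      constructor <;> omega
    · simp only [hI, jb, Finset.inl_mem_disjSum, Finset.mem_product, Finset.mem_range]
      constructor <;> omega
    · simp only [hI, jb, Finset.inr_mem_disjSum, Finset.mem_range]
      omega
  have horth : ∀ x : JJ q, (p.circ (ja x)).Orthogonal (p.circ (jb x)) := by
    intro x
    rcases x with ⟨i, j⟩ | ⟨i, j⟩ | ⟨i, j⟩ | ⟨i, j⟩
    · exact p.orth_same i j
    · exact p.orth_up i j
    · exact p.orth_up' i j
    · exact p.orth_con i j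
  obtain ⟨W, hW, hWc⟩ := exists_W hS (fun x : JJ q => p.circ (ja x)) (fun x => p.circ (jb x))
    (fun x => Finset.mem_image_of_mem _ (hja x)) (fun x => Finset.mem_image_of_mem _ (hjb x))
    horth (by
      intro x y hxy
      have h := jab_inj x y hxy
      constructor
      · rintro ⟨h1, h2⟩
        exact h.1 ⟨hinj (hja x) (hja y) h1, hinj (hjb x) (hjb y) h2⟩
      · rintro ⟨h1, h2⟩
        exact h.2 ⟨hinj (hja x) (hjb y) h1, hinj (hjb x) (hja y) h2⟩) m
    (by rw [card_JJ]; exact hm)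
  obtain ⟨S', h1, h2, T, h3, h4⟩ := transfer hS W hW
  exact ⟨S', h1, by rw [h2, hcard, hWc], T, h3, by rw [h4, hWc]; ring⟩

end Pool.Agent.Helper6.Orth
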