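import Pool.Agent.Helper6.Orth.Defs

/-!
Elementary facts on orthogonal circles.
-/

namespace Pool.Agent.Helper6.Orth

open Complex

lemma Circ.ext' {A B : Circ} (hc : A.c = B.c) (hr : A.r = B.r) : A = B := by
  cases A; cases B; simp_all

lemma mem_pts {A : Circ} {z : ℂ} : z ∈ A.pts ↔ ‖z - A.c‖ = A.r := by
  unfold Circ.pts
  rw [mem_sphere_iff_norm]

lemma mem_pts_sq {A : Circ} {z : ℂ} : z ∈ A.pts ↔ normSq (z - A.c) = A.r ^ 2 := by
  rw [mem_pts, normSq_eq_norm_sq]
  constructor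
  · intro h; rw [h]
  · intro h
    have := abs_eq_abs.2 (sq_eq_sq_iff_eq_or_eq_neg.1 h)
    rwa [abs_of_nonneg (norm_nonneg _), abs_of_pos A.pos] at this

lemma pts_nonempty (A : Circ) : A.pts.Nonempty := by
  refine ⟨A.c + A.r, ?_⟩
  rw [mem_pts]
  simp [abs_of_pos A.pos]

lemma inner_eq (z w : ℂ) : inner ℝ z w = z.re * w.re + z.im * w.im := by
  rw [Complex.inner]
  simp only [Complex.mul_re, Complex.conj_re, Complex.conj_im]
  ring

lemma isClosed_pts (A : Circ) : IsClosed A.pts := Metric.isClosed_sphere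

/-- Pythagoras. -/
lemma normSq_of_orthogonal {A B : Circ} {z : ℂ} (hA : z ∈ A.pts) (hB : z ∈ B.pts)
    (h : inner ℝ (z - A.c) (z - B.c) = 0) : normSq (A.c - B.c) = A.r ^ 2 + B.r ^ 2 := by
  rw [mem_pts_sq] at hA hB
  rw [inner_eq] at h
  rw [← hA, ← hB]
  simp only [normSq_apply, sub_re, sub_im] at *
  nlinarith

lemma orthogonal_of_normSq {A B : Circ} (h : normSq (A.c - B.c) = A.r ^ 2 + B.r ^ 2) :
    A.Orthogonal B := by
  have hA := A.pos
  have hB := B.pos
  set d := A.r ^ 2 + B.r ^ 2 with hd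
  have hd0 : 0 < d := by positivity
  -- the explicit common points
  set u : ℂ := B.c - A.c with hu
  have hun : normSq u = d := by rw [hu, ← h, ← normSq_neg, neg_sub]
  have hu0 : u ≠ 0 := by
    intro h0
    rw [h0, normSq_zero] at hun
    exact hd0.ne hun
  have hdC : (d : ℂ) ≠ 0 := by exact_mod_cast hd0.ne'
  have key : ∀ z : ℂ, (z ∈ A.pts ∧ z ∈ B.pts) ↔
      (z = A.c + u * (⟨A.r ^ 2 / d, A.r * B.r / d⟩ : ℂ) ∨
        z = A.c + u * (⟨A.r ^ 2 / d, -(A.r * B.r / d)⟩ : ℂ)) := by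
    intro z
    obtain ⟨ζ, hζ⟩ : ∃ ζ : ℂ, z = A.c + u * ζ := ⟨(z - A.c) / u, by field_simp; ring⟩
    have h1 : z ∈ A.pts ↔ normSq ζ = A.r ^ 2 / d := by
      rw [mem_pts_sq, hζ, add_sub_cancel_left, normSq_mul, hun, eq_div_iff hd0.ne', mul_comm]
    have h2 : z ∈ B.pts ↔ normSq (ζ - 1) = B.r ^ 2 / d := by
      rw [mem_pts_sq, hζ, show A.c + u * ζ - B.c = u * (ζ - 1) by rw [hu]; ring, normSq_mul, hun,
        eq_div_iff hd0.ne', mul_comm]
    rw [h1, h2]
    have h3 : (z = A.c + u * (⟨A.r ^ 2 / d, A.r * B.r / d⟩ : ℂ)) ↔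
        ζ = (⟨A.r ^ 2 / d, A.r * B.r / d⟩ : ℂ) := by
      rw [hζ]
      constructor
      · intro h; exact mul_left_cancel₀ hu0 (add_left_cancel h)
      · intro h; rw [h]
    have h4 : (z = A.c + u * (⟨A.r ^ 2 / d, -(A.r * B.r / d)⟩ : ℂ)) ↔
        ζ = (⟨A.r ^ 2 / d, -(A.r * B.r / d)⟩ : ℂ) := by
      rw [hζ]
      constructor
      · intro h; exact mul_left_cancel₀ hu0 (add_left_cancel h)
      · intro h; rw [h]
    rw [h3, h4]
    constructor
    · rintro ⟨e1, e2⟩
      simp only [normSq_apply, sub_re, sub_im, one_re, one_im] at e1 e2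
      have e3 : ζ.re = A.r ^ 2 / d := by
        have : A.r ^ 2 / d + B.r ^ 2 / d = 1 := by rw [← add_div, ← hd, div_self hd0.ne']
        nlinarith
      have e4 : ζ.im ^ 2 = (A.r * B.r / d) ^ 2 := by
        have : ζ.im ^ 2 = A.r ^ 2 / d - (A.r ^ 2 / d) ^ 2 := by
          rw [← e3]; nlinarith
        rw [this, hd]
        field_simp
        ring
      rcases sq_eq_sq_iff_eq_or_eq_neg.1 e4 with e5 | e5
      · left; exact Complex.ext e3 e5
      · right; exact Complex.ext e3 e5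
    · intro e
      have e3 : ζ.re = A.r ^ 2 / d := by rcases e with e | e <;> rw [e]
      have e4 : ζ.im ^ 2 = (A.r * B.r / d) ^ 2 := by rcases e with e | e <;> rw [e] <;> simp
      constructor
      · rw [normSq_apply, ← sq, ← sq, e4, e3, hd]
        field_simp
      · rw [normSq_apply, ← sq, ← sq, sub_im, one_im, sub_zero, e4, sub_re, one_re, e3, hd]
        field_simp
        ring
  refine ⟨⟨A.c + u * (⟨A.r ^ 2 / d, A.r * B.r / d⟩ : ℂ),
    A.c + u * (⟨A.r ^ 2 / d, -(A.r * B.r / d)⟩ : ℂ), ?_, ?_⟩, ?_⟩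
  · intro e
    have e2 := mul_left_cancel₀ hu0 (add_left_cancel e)
    have e3 := congrArg Complex.im e2
    simp only at e3
    have : 0 < A.r * B.r / d := by positivity
    linarith
  · ext z
    exact key z
  · rintro z ⟨h1, h2⟩
    rw [mem_pts_sq] at h1 h2
    rw [inner_eq]
    simp only [normSq_apply, sub_re, sub_im] at *
    nlinarith

lemma Circ.Orthogonal.normSq {A B : Circ} (h : A.Orthogonal B) :
    Complex.normSq (A.c - B.c) = A.r ^ 2 + B.r ^ 2 := by
  obtain ⟨⟨p, q, -, hpq⟩, hz⟩ := h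
  have hp : p ∈ A.pts ∩ B.pts := by rw [hpq]; simp
  exact normSq_of_orthogonal hp.1 hp.2 (hz p hp)

lemma orthogonal_iff {A B : Circ} :
    A.Orthogonal B ↔ Complex.normSq (A.c - B.c) = A.r ^ 2 + B.r ^ 2 :=
  ⟨fun h => h.normSq, orthogonal_of_normSq⟩

lemma Circ.Orthogonal.symm {A B : Circ} (h : A.Orthogonal B) : B.Orthogonal A := by
  rw [orthogonal_iff] at *
  rw [← normSq_neg, neg_sub, h, add_comm]

lemma Circ.Orthogonal.ne {A B : Circ} (h : A.Orthogonal B) : A ≠ B := by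
  rintro rfl
  have := h.normSq
  rw [sub_self, normSq_zero] at this
  have := A.pos
  nlinarith

/-- No point lies on three pairwise orthogonal circles. -/
lemma no_three {A B C : Circ} (h1 : A.Orthogonal B) (h2 : A.Orthogonal C) (h3 : B.Orthogonal C)
    {z : ℂ} (hA : z ∈ A.pts) (hB : z ∈ B.pts) (hC : z ∈ C.pts) : False := by
  have e1 := h1.2 z ⟨hA, hB⟩
  have e2 := h2.2 z ⟨hA, hC⟩
  have e3 := h3.2 z ⟨hB, hC⟩
  rw [mem_pts_sq] at hA hB hC
  rw [inner_eq] at e1 e2 e3
  simp only [normSq_apply, sub_re, sub_im] at *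
  have pA := A.pos
  have pB := B.pos
  have pC := C.pos
  set a := z.re - A.c.re
  set a' := z.im - A.c.im
  set b := z.re - B.c.re
  set b' := z.im - B.c.im
  set c := z.re - C.c.re
  set c' := z.im - C.c.im
  -- (b,b') and (c,c') are perpendicular to (a,a') and to each other
  have f1 : (b * c' - b' * c) ^ 2 = B.r ^ 2 * C.r ^ 2 := by
    rw [← hB, ← hC]
    have : (b * c' - b' * c) ^ 2 + (b * c + b' * c') ^ 2 = (b * b + b' * b') * (c * c + c' * c') := by
      ring
    rw [e3] at this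
    linarith
  have f2 : A.r ^ 2 * (b * c' - b' * c) = 0 := by
    rw [← hA]
    have : (a * a + a' * a') * (b * c' - b' * c) =
        (a * b + a' * b') * (a * c' - a' * c) - (a * c + a' * c') * (a * b' - a' * b) := by ring
    rw [this, e1, e2]
    ring
  have f3 : b * c' - b' * c = 0 := by
    rcases mul_eq_zero.1 f2 with h | h
    · exact absurd h (by positivity)
    · exact h
  rw [f3] at f1
  have : 0 < B.r ^ 2 * C.r ^ 2 := by positivity
  simp at f1
  rcases f1 with h | h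
  · exact pB.ne' h
  · exact pC.ne' h

/-- In an arrangement the circles through a crossing point are determined. -/
lemma crossing_unique {S : Finset Circ} (hS : IsArrangement S) {A B C : Circ} (hA : A ∈ S)
    (hB : B ∈ S) (hC : C ∈ S) (hAB : A ≠ B) {z : ℂ} (zA : z ∈ A.pts) (zB : z ∈ B.pts)
    (zC : z ∈ C.pts) : C = A ∨ C = B := by
  by_contra hne
  rw [not_or] at hne
  have o : ∀ {X Y : Circ}, X ∈ S → Y ∈ S → X ≠ Y → z ∈ X.pts → z ∈ Y.pts → X.Orthogonal Y := by
    intro X Y hX hY hXY zX zY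
    rcases hS X hX Y hY hXY with h | h
    · exact absurd zY (Set.disjoint_left.1 h zX)
    · exact h
  exact no_three (o hA hB hAB zA zB) (o hA hC (Ne.symm hne.1) zA zC) (o hB hC (Ne.symm hne.2) zB zC)
    zA zB zC

end Pool.Agent.Helper6.Orth
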