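import Mathlib

/-!
# Arrangements of orthogonal circles: definitions

The Euclidean plane is `ℂ`.
-/

namespace Pool.Agent.Helper6.Orth

/-- A circle of the Euclidean plane: centre and (positive) radius. -/
structure Circ where
  /-- The centre. -/
  c : ℂ
  /-- The radius. -/
  r : ℝ
  pos : 0 < r

/-- The points of a circle. -/
def Circ.pts (A : Circ) : Set ℂ := Metric.sphere A.c A.r

/-- `A` and `B` intersect orthogonally: they have exactly two common points, and at each common point
the radii (equivalently, the tangent lines) of `A` and `B` are perpendicular. -/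
def Circ.Orthogonal (A B : Circ) : Prop :=
  (∃ p q : ℂ, p ≠ q ∧ A.pts ∩ B.pts = {p, q}) ∧
    ∀ z ∈ A.pts ∩ B.pts, inner ℝ (z - A.c) (z - B.c) = 0

/-- An arrangement of orthogonal circles: any two different circles of the finite set `S` are disjoint
(as sets of points) or intersect orthogonally. -/
def IsArrangement (S : Finset Circ) : Prop :=
  ∀ A ∈ S, ∀ B ∈ S, A ≠ B → Disjoint A.pts B.pts ∨ A.Orthogonal B

/-- The union of the circles of the arrangement. -/
def carrier (S : Finset Circ) : Set ℂ := {z | ∃ A ∈ S, z ∈ A.pts}

/-- The crossing points: points which lie on two different circles. -/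
def crossings (S : Finset Circ) : Set ℂ := {z | ∃ A ∈ S, ∃ B ∈ S, A ≠ B ∧ z ∈ A.pts ∧ z ∈ B.pts}

/-- The faces: connected components of the complement of the union of the circles. -/
def IsFace (S : Finset Circ) (F : Set ℂ) : Prop :=
  ∃ z ∈ (carrier S)ᶜ, F = connectedComponentIn (carrier S)ᶜ z

/-- The (open) arcs of the arrangement: connected components of the union of the circles with the
crossing points removed. -/
def IsArc (S : Finset Circ) (E : Set ℂ) : Prop :=
  ∃ z ∈ carrier S \ crossings S, E = connectedComponentIn (carrier S \ crossings S) z

/-- A triangular face: its boundary contains exactly three arcs of the arrangement. -/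
def IsTriangularFace (S : Finset Circ) (F : Set ℂ) : Prop :=
  IsFace S F ∧ {E | IsArc S E ∧ E ⊆ frontier F}.ncard = 3

end Pool.Agent.Helper6.Orth
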