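import Pool.Agent.Helper6.Orth.Sector

/-!
The circle of the pencil and the four triangular faces inside it.
-/

namespace Pool.Agent.Helper6.Orth

open Complex Set Filter Topology

namespace Cross

variable (X : Cross)

/-- The circle `|z - P| = κ |z - Q|` of the Apollonian pencil of `P`, `Q`. -/
noncomputable def pen (κ : ℝ) (h0 : 0 < κ) (h1 : κ < 1) : Circ where
  c := (X.P - (κ ^ 2 : ℝ) * X.Q) / ((1 - κ ^ 2 : ℝ) : ℂ)
  r := κ * ‖X.P - X.Q‖ / (1 - κ ^ 2)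
  pos := by
    have h2 : 0 < 1 - κ ^ 2 := by nlinarith
    have h3 : 0 < ‖X.P - X.Q‖ := norm_pos_iff.2 (sub_ne_zero.2 X.ne)
    positivity

variable {X} {κ : ℝ} (h0 : 0 < κ) (h1 : κ < 1)

include h0 h1 in
lemma one_sub_pos : 0 < 1 - κ ^ 2 := by nlinarith

lemma fn_pen (z : ℂ) : (1 - κ ^ 2) * fn (X.pen κ h0 h1) z =
    normSq (z - X.P) - κ ^ 2 * normSq (z - X.Q) := by
  have h2 := one_sub_pos h0 h1
  have h2C : ((1 - κ ^ 2 : ℝ) : ℂ) ≠ 0 := by exact_mod_cast h2.ne'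
  have e1 : normSq (z - (X.pen κ h0 h1).c) * (1 - κ ^ 2) ^ 2 =
      normSq ((z - X.P) - (κ ^ 2 : ℝ) * (z - X.Q)) := by
    have : (z - X.P) - (κ ^ 2 : ℝ) * (z - X.Q) =
        (z - (X.pen κ h0 h1).c) * ((1 - κ ^ 2 : ℝ) : ℂ) := by
      unfold pen
      simp only
      field_simp
      push_cast
      ring
    rw [this, normSq_mul, normSq_ofReal, sq]
  have e2 : (X.pen κ h0 h1).r ^ 2 * (1 - κ ^ 2) ^ 2 = κ ^ 2 * normSq (X.P - X.Q) := by
    unfold pen
    simp only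
    rw [normSq_eq_norm_sq]
    field_simp
  have e3 : (1 - κ ^ 2) * ((1 - κ ^ 2) * fn (X.pen κ h0 h1) z) =
      (1 - κ ^ 2) * (normSq (z - X.P) - κ ^ 2 * normSq (z - X.Q)) := by
    have : (1 - κ ^ 2) * ((1 - κ ^ 2) * fn (X.pen κ h0 h1) z) =
      normSq (z - (X.pen κ h0 h1).c) * (1 - κ ^ 2) ^ 2 -
        (X.pen κ h0 h1).r ^ 2 * (1 - κ ^ 2) ^ 2 := by
      unfold fn; ring
    rw [this, e1, e2]
    simp only [normSq_apply, sub_re, sub_im, mul_re, mul_im, ofReal_re, ofReal_im]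
    ring
  exact mul_left_cancel₀ h2.ne' e3

lemma mem_pen {z : ℂ} : z ∈ (X.pen κ h0 h1).pts ↔ ‖z - X.P‖ = κ * ‖z - X.Q‖ := by
  have h2 := one_sub_pos h0 h1
  rw [← fn_eq_zero]
  have h3 := fn_pen (X := X) h0 h1 z
  have h4 : fn (X.pen κ h0 h1) z = 0 ↔ normSq (z - X.P) = κ ^ 2 * normSq (z - X.Q) := by
    rw [← sub_eq_zero (a := normSq (z - X.P)), ← h3, mul_eq_zero, or_iff_right h2.ne']
  rw [h4, normSq_eq_norm_sq, normSq_eq_norm_sq, ← mul_pow]
  constructor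
  · intro h
    have := abs_eq_abs.2 (sq_eq_sq_iff_eq_or_eq_neg.1 h)
    rwa [abs_of_nonneg (norm_nonneg _), abs_of_nonneg (by positivity)] at this
  · intro h; rw [h]

/-- Circles through `P` and `Q` are orthogonal to the circles of the pencil. -/
lemma orth_pen_of_fn {A : Circ} {t : ℝ}
    (h : ∀ z, z ≠ X.Q → fn A z = normSq (z - X.Q) * lin t ((z - X.P) / (z - X.Q))) :
    (X.pen κ h0 h1).Orthogonal A := by
  have h2 := one_sub_pos h0 h1
  have h2C : ((1 - κ ^ 2 : ℝ) : ℂ) ≠ 0 := by exact_mod_cast h2.ne'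
  have hPQ : X.P - X.Q ≠ 0 := sub_ne_zero.2 X.ne
  rw [orthogonal_iff]
  have e1 : (X.pen κ h0 h1).c - X.Q = (X.P - X.Q) / ((1 - κ ^ 2 : ℝ) : ℂ) := by
    unfold pen
    simp only
    field_simp
    push_cast
    ring
  have e2 : (X.pen κ h0 h1).c - X.P = (κ ^ 2 : ℝ) * (X.P - X.Q) / ((1 - κ ^ 2 : ℝ) : ℂ) := by
    unfold pen
    simp only
    field_simp
    push_cast
    ring
  have hne : (X.pen κ h0 h1).c ≠ X.Q := by
    rw [← sub_ne_zero, e1]
    exact div_ne_zero hPQ h2C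
  have e3 := h _ hne
  have e4 : ((X.pen κ h0 h1).c - X.P) / ((X.pen κ h0 h1).c - X.Q) = ((κ ^ 2 : ℝ) : ℂ) := by
    rw [e1, e2]
    field_simp
  have e5 : normSq ((X.pen κ h0 h1).c - X.Q) = normSq (X.P - X.Q) / (1 - κ ^ 2) ^ 2 := by
    rw [e1, normSq_div, normSq_ofReal, ← sq]
  rw [e4, e5] at e3
  have e6 : lin t ((κ ^ 2 : ℝ) : ℂ) = κ ^ 2 := by
    unfold lin
    rw [ofReal_re, ofReal_im]
    ring
  rw [e6] at e3
  have e7 : (X.pen κ h0 h1).r ^ 2 = normSq (X.P - X.Q) / (1 - κ ^ 2) ^ 2 * κ ^ 2 := by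
    unfold pen
    simp only
    rw [normSq_eq_norm_sq]
    field_simp
  rw [e7, ← e3]
  unfold fn
  ring

lemma orth_pen_A : (X.pen κ h0 h1).Orthogonal X.A := orth_pen_of_fn h0 h1 fun _ hz => X.fnA hz

lemma orth_pen_B : (X.pen κ h0 h1).Orthogonal X.B := orth_pen_of_fn h0 h1 fun _ hz => X.fnB hz

/-! ### The faces -/

/-- `S` contains `A`, `B` and the pencil circle, and no other circle of `S` meets its closed disc. -/
structure Local (X : Cross) (κ : ℝ) (h0 : 0 < κ) (h1 : κ < 1) (S : Finset Circ) : Prop where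
  arr : IsArrangement S
  hA : X.A ∈ S
  hB : X.B ∈ S
  hD : X.pen κ h0 h1 ∈ S
  loc : ∀ C ∈ S, C ≠ X.A → C ≠ X.B → C ≠ X.pen κ h0 h1 →
    ∀ z, ‖z - X.P‖ ≤ κ * ‖z - X.Q‖ → z ∉ C.pts

section

variable {S : Finset Circ} (L : Local X κ h0 h1 S)

include L

/-- Membership in the union of the circles, inside the closed disc. -/
lemma mem_carrier {z : ℂ} (hz : ‖z - X.P‖ ≤ κ * ‖z - X.Q‖) :
    z ∈ carrier S ↔ fn X.A z = 0 ∨ fn X.B z = 0 ∨ ‖z - X.P‖ = κ * ‖z - X.Q‖ := by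
  constructor
  · rintro ⟨C, hC, hzC⟩
    by_cases hCA : C = X.A
    · left; rw [fn_eq_zero, ← hCA]; exact hzC
    by_cases hCB : C = X.B
    · right; left; rw [fn_eq_zero, ← hCB]; exact hzC
    by_cases hCD : C = X.pen κ h0 h1
    · right; right; rw [← mem_pen h0 h1, ← hCD]; exact hzC
    exact absurd hzC (L.loc C hC hCA hCB hCD z hz)
  · rintro (h | h | h)
    · exact ⟨_, L.hA, fn_eq_zero.1 h⟩
    · exact ⟨_, L.hB, fn_eq_zero.1 h⟩
    · exact ⟨_, L.hD, (mem_pen h0 h1).2 h⟩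

lemma crossAB {z : ℂ} (hA : fn X.A z = 0) (hB : fn X.B z = 0) : z ∈ crossings S :=
  ⟨_, L.hA, _, L.hB, X.orth.ne, fn_eq_zero.1 hA, fn_eq_zero.1 hB⟩

lemma crossAD {z : ℂ} (hA : fn X.A z = 0) (hD : ‖z - X.P‖ = κ * ‖z - X.Q‖) : z ∈ crossings S :=
  ⟨_, L.hA, _, L.hD, (orth_pen_A h0 h1).ne.symm, fn_eq_zero.1 hA, (mem_pen h0 h1).2 hD⟩

lemma crossBD {z : ℂ} (hB : fn X.B z = 0) (hD : ‖z - X.P‖ = κ * ‖z - X.Q‖) : z ∈ crossings S :=
  ⟨_, L.hB, _, L.hD, (orth_pen_B h0 h1).ne.symm, fn_eq_zero.1 hB, (mem_pen h0 h1).2 hD⟩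

/-- Crossing points, inside the closed disc. -/
lemma mem_crossings {z : ℂ} (hz : ‖z - X.P‖ ≤ κ * ‖z - X.Q‖) (h : z ∈ crossings S) :
    (fn X.A z = 0 ∧ fn X.B z = 0) ∨ (fn X.A z = 0 ∧ ‖z - X.P‖ = κ * ‖z - X.Q‖) ∨
      (fn X.B z = 0 ∧ ‖z - X.P‖ = κ * ‖z - X.Q‖) := by
  obtain ⟨C, hC, E, hE, hne, zC, zE⟩ := h
  have key : ∀ C ∈ S, z ∈ C.pts → C = X.A ∨ C = X.B ∨ C = X.pen κ h0 h1 := by
    intro C hC zC
    by_contra hcon
    rw [not_or, not_or] at hcon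
    exact L.loc C hC hcon.1 hcon.2.1 hcon.2.2 z hz zC
  rcases key C hC zC with rfl | rfl | rfl <;> rcases key E hE zE with rfl | rfl | rfl
  · exact absurd rfl hne
  · exact Or.inl ⟨fn_eq_zero.2 zC, fn_eq_zero.2 zE⟩
  · exact Or.inr (Or.inl ⟨fn_eq_zero.2 zC, (mem_pen h0 h1).1 zE⟩)
  · exact Or.inl ⟨fn_eq_zero.2 zE, fn_eq_zero.2 zC⟩
  · exact absurd rfl hne
  · exact Or.inr (Or.inr ⟨fn_eq_zero.2 zC, (mem_pen h0 h1).1 zE⟩)
  · exact Or.inr (Or.inl ⟨fn_eq_zero.2 zE, (mem_pen h0 h1).1 zC⟩)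
  · exact Or.inr (Or.inr ⟨fn_eq_zero.2 zE, (mem_pen h0 h1).1 zC⟩)
  · exact absurd rfl hne

omit L in
lemma ne_zero_of_pos {s x : ℝ} (h : 0 < s * x) : x ≠ 0 := by
  rintro rfl
  rw [mul_zero] at h
  exact lt_irrefl _ h

variable {σ τ : ℝ}

omit L in
lemma pos_of_nonneg {s x : ℝ} (hs : s ≠ 0) (h : 0 ≤ s * x) (hx : x ≠ 0) : 0 < s * x :=
  lt_of_le_of_ne h (Ne.symm (mul_ne_zero hs hx))

lemma face_component (hσ : σ ≠ 0) (hτ : τ ≠ 0) {z : ℂ} (hz : z ∈ X.face κ σ τ) :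
    connectedComponentIn (carrier S)ᶜ z = X.face κ σ τ := by
  apply component_eq hz (face_preconnected h1) isOpen_face
    (isClosed_cl.inter ((isClosed_fn σ X.A).inter (isClosed_fn τ X.B)))
  · ext y
    constructor
    · intro hy
      refine ⟨?_, hy⟩
      intro hc
      rcases (mem_carrier h0 h1 L hy.1.le).1 hc with h | h | h
      · exact ne_zero_of_pos hy.2.1 h
      · exact ne_zero_of_pos hy.2.2 h
      · exact hy.1.ne h
    · exact fun hy => hy.2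
  · ext y
    constructor
    · intro hy
      refine ⟨?_, hy.1.le, hy.2.1.le, hy.2.2.le⟩
      intro hc
      rcases (mem_carrier h0 h1 L hy.1.le).1 hc with h | h | h
      · exact ne_zero_of_pos hy.2.1 h
      · exact ne_zero_of_pos hy.2.2 h
      · exact hy.1.ne h
    · rintro ⟨hc, hy1, hy2, hy3⟩
      have h4 : fn X.A y ≠ 0 := fun h => hc ((mem_carrier h0 h1 L hy1).2 (Or.inl h))
      have h5 : fn X.B y ≠ 0 := fun h => hc ((mem_carrier h0 h1 L hy1).2 (Or.inr (Or.inl h)))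
      have h6 : ‖y - X.P‖ ≠ κ * ‖y - X.Q‖ := fun h =>
        hc ((mem_carrier h0 h1 L hy1).2 (Or.inr (Or.inr h)))
      exact ⟨lt_of_le_of_ne hy1 h6, pos_of_nonneg hσ hy2 h4, pos_of_nonneg hτ hy3 h5⟩

omit L h0 h1 in
/-- The union of the circles of `S` other than `C` is closed. -/
lemma isClosed_others (C : Circ) : IsClosed {z : ℂ | ∃ E ∈ S, E ≠ C ∧ z ∈ E.pts} := by
  classical
  have : {z : ℂ | ∃ E ∈ S, E ≠ C ∧ z ∈ E.pts} = ⋃ E ∈ S.filter (· ≠ C), E.pts := by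
    ext z
    simp [and_assoc]
  rw [this]
  exact isClosed_biUnion_finset fun E _ => isClosed_pts E

lemma arcD_component (hσ : σ ≠ 0) (hτ : τ ≠ 0) {z : ℂ} (hz : z ∈ X.arcD κ σ τ) :
    connectedComponentIn (carrier S \ crossings S) z = X.arcD κ σ τ := by
  have hsub : ∀ y ∈ X.arcD κ σ τ, y ∈ carrier S \ crossings S := by
    intro y hy
    refine ⟨(mem_carrier h0 h1 L hy.1.le).2 (Or.inr (Or.inr hy.1)), fun hc => ?_⟩
    rcases mem_crossings h0 h1 L hy.1.le hc with h | h | h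
    · exact ne_zero_of_pos hy.2.1 h.1
    · exact ne_zero_of_pos hy.2.1 h.1
    · exact ne_zero_of_pos hy.2.2 h.1
  apply component_eq hz (arcD_preconnected h0 h1)
    (O := {z : ℂ | ∃ E ∈ S, E ≠ X.pen κ h0 h1 ∧ z ∈ E.pts}ᶜ ∩
      ({z | 0 < σ * fn X.A z} ∩ {z | 0 < τ * fn X.B z}))
    (K := (X.pen κ h0 h1).pts ∩ ({z | 0 ≤ σ * fn X.A z} ∩ {z | 0 ≤ τ * fn X.B z}))
    ((isClosed_others _).isOpen_compl.inter ((isOpen_fn σ X.A).inter (isOpen_fn τ X.B)))
    ((isClosed_pts _).inter ((isClosed_fn σ X.A).inter (isClosed_fn τ X.B)))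
  · ext y
    constructor
    · intro hy
      refine ⟨hsub y hy, ?_, hy.2.1, hy.2.2⟩
      rintro ⟨E, hE, hne, hyE⟩
      exact (hsub y hy).2 ⟨E, hE, _, L.hD, hne, hyE, (mem_pen h0 h1).2 hy.1⟩
    · rintro ⟨⟨⟨E, hE, hyE⟩, -⟩, hy1, hy2, hy3⟩
      have : E = X.pen κ h0 h1 := by
        by_contra hne
        exact hy1 ⟨E, hE, hne, hyE⟩
      rw [this] at hyE
      exact ⟨(mem_pen h0 h1).1 hyE, hy2, hy3⟩
  · ext y
    constructor
    · intro hy
      exact ⟨hsub y hy, (mem_pen h0 h1).2 hy.1, hy.2.1.le, hy.2.2.le⟩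
    · rintro ⟨⟨-, hc⟩, hy1, hy2, hy3⟩
      have hD := (mem_pen h0 h1).1 hy1
      exact ⟨hD, pos_of_nonneg hσ hy2 fun h => hc (crossAD h0 h1 L h hD),
        pos_of_nonneg hτ hy3 fun h => hc (crossBD h0 h1 L h hD)⟩

lemma arcA_component (hτ : τ ≠ 0) {z : ℂ} (hz : z ∈ X.arcA κ τ) :
    connectedComponentIn (carrier S \ crossings S) z = X.arcA κ τ := by
  have hsub : ∀ y ∈ X.arcA κ τ, y ∈ carrier S \ crossings S := by
    intro y hy
    refine ⟨(mem_carrier h0 h1 L hy.1.le).2 (Or.inl hy.2.1), fun hc => ?_⟩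
    rcases mem_crossings h0 h1 L hy.1.le hc with h | h | h
    · exact ne_zero_of_pos hy.2.2 h.2
    · exact hy.1.ne h.2
    · exact hy.1.ne h.2
  apply component_eq hz (arcA_preconnected h1)
    (O := {z : ℂ | ‖z - X.P‖ < κ * ‖z - X.Q‖} ∩ {z | 0 < τ * fn X.B z})
    (K := {z : ℂ | ‖z - X.P‖ ≤ κ * ‖z - X.Q‖} ∩ ({z | fn X.A z = 0} ∩ {z | 0 ≤ τ * fn X.B z}))
    (isOpen_inn.inter (isOpen_fn τ X.B))
    (isClosed_cl.inter ((isClosed_fn0 X.A).inter (isClosed_fn τ X.B)))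
  · ext y
    constructor
    · intro hy
      exact ⟨hsub y hy, hy.1, hy.2.2⟩
    · rintro ⟨⟨hc, -⟩, hy1, hy2⟩
      have hy1' : ‖y - X.P‖ < κ * ‖y - X.Q‖ := hy1
      rcases (mem_carrier h0 h1 L hy1'.le).1 hc with h | h | h
      · exact ⟨hy1, h, hy2⟩
      · exact absurd h (ne_zero_of_pos hy2)
      · exact absurd h hy1'.ne
  · ext y
    constructor
    · intro hy
      exact ⟨hsub y hy, hy.1.le, hy.2.1, hy.2.2.le⟩
    · rintro ⟨⟨-, hc⟩, hy1, hy2, hy3⟩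
      exact ⟨lt_of_le_of_ne hy1 fun h => hc (crossAD h0 h1 L hy2 h), hy2,
        pos_of_nonneg hτ hy3 fun h => hc (crossAB h0 h1 L hy2 h)⟩

lemma arcB_component (hσ : σ ≠ 0) {z : ℂ} (hz : z ∈ X.arcB κ σ) :
    connectedComponentIn (carrier S \ crossings S) z = X.arcB κ σ := by
  have hsub : ∀ y ∈ X.arcB κ σ, y ∈ carrier S \ crossings S := by
    intro y hy
    refine ⟨(mem_carrier h0 h1 L hy.1.le).2 (Or.inr (Or.inl hy.2.1)), fun hc => ?_⟩
    rcases mem_crossings h0 h1 L hy.1.le hc with h | h | h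
    · exact ne_zero_of_pos hy.2.2 h.1
    · exact hy.1.ne h.2
    · exact hy.1.ne h.2
  apply component_eq hz (arcB_preconnected h1)
    (O := {z : ℂ | ‖z - X.P‖ < κ * ‖z - X.Q‖} ∩ {z | 0 < σ * fn X.A z})
    (K := {z : ℂ | ‖z - X.P‖ ≤ κ * ‖z - X.Q‖} ∩ ({z | fn X.B z = 0} ∩ {z | 0 ≤ σ * fn X.A z}))
    (isOpen_inn.inter (isOpen_fn σ X.A))
    (isClosed_cl.inter ((isClosed_fn0 X.B).inter (isClosed_fn σ X.A)))
  · ext y
    constructor
    · intro hy
      exact ⟨hsub y hy, hy.1, hy.2.2⟩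
    · rintro ⟨⟨hc, -⟩, hy1, hy2⟩
      have hy1' : ‖y - X.P‖ < κ * ‖y - X.Q‖ := hy1
      rcases (mem_carrier h0 h1 L hy1'.le).1 hc with h | h | h
      · exact absurd h (ne_zero_of_pos hy2)
      · exact ⟨hy1, h, hy2⟩
      · exact absurd h hy1'.ne
  · ext y
    constructor
    · intro hy
      exact ⟨hsub y hy, hy.1.le, hy.2.1, hy.2.2.le⟩
    · rintro ⟨⟨-, hc⟩, hy1, hy2, hy3⟩
      exact ⟨lt_of_le_of_ne hy1 fun h => hc (crossBD h0 h1 L hy2 h), hy2,
        pos_of_nonneg hσ hy3 fun h => hc (crossAB h0 h1 L h hy2)⟩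

/-- The four sets `X.face κ (±1) (±1)` are triangular faces. -/
theorem isTriangularFace (hσ : σ ≠ 0) (hτ : τ ≠ 0) : IsTriangularFace S (X.face κ σ τ) := by
  constructor
  · obtain ⟨z, hz⟩ := face_nonempty (X := X) h0 h1 hσ hτ
    refine ⟨z, ?_, (face_component h0 h1 L hσ hτ hz).symm⟩
    intro hc
    rcases (mem_carrier h0 h1 L hz.1.le).1 hc with h | h | h
    · exact ne_zero_of_pos hz.2.1 h
    · exact ne_zero_of_pos hz.2.2 h
    · exact hz.1.ne h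
  · have hfr : frontier (X.face κ σ τ) = closure (X.face κ σ τ) \ X.face κ σ τ :=
      isOpen_face.frontier_eq
    -- the closure is contained in the closed sector
    have hcl : closure (X.face κ σ τ) ⊆
        {z : ℂ | ‖z - X.P‖ ≤ κ * ‖z - X.Q‖} ∩ ({z | 0 ≤ σ * fn X.A z} ∩ {z | 0 ≤ τ * fn X.B z}) := by
      apply closure_minimal
      · intro y hy
        exact ⟨hy.1.le, hy.2.1.le, hy.2.2.le⟩
      · exact isClosed_cl.inter ((isClosed_fn σ X.A).inter (isClosed_fn τ X.B))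
    have hset : {E | IsArc S E ∧ E ⊆ frontier (X.face κ σ τ)} =
        {X.arcD κ σ τ, X.arcA κ τ, X.arcB κ σ} := by
      ext E
      constructor
      · rintro ⟨⟨z, hz, rfl⟩, hE⟩
        have hzE : z ∈ connectedComponentIn (carrier S \ crossings S) z :=
          mem_connectedComponentIn hz
        have hzf := hE hzE
        rw [hfr] at hzf
        obtain ⟨hz1, hz2, hz3⟩ := hcl hzf.1
        have hz1' : ‖z - X.P‖ ≤ κ * ‖z - X.Q‖ := hz1
        have hcr := hz.2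
        by_cases hD : ‖z - X.P‖ = κ * ‖z - X.Q‖
        · left
          apply arcD_component h0 h1 L hσ hτ
          exact ⟨hD, pos_of_nonneg hσ hz2 fun h => hcr (crossAD h0 h1 L h hD),
            pos_of_nonneg hτ hz3 fun h => hcr (crossBD h0 h1 L h hD)⟩
        have hlt := lt_of_le_of_ne hz1' hD
        by_cases hA : fn X.A z = 0
        · right; left
          apply arcA_component h0 h1 L hτ
          exact ⟨hlt, hA, pos_of_nonneg hτ hz3 fun h => hcr (crossAB h0 h1 L hA h)⟩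
        by_cases hB : fn X.B z = 0
        · right; right
          apply arcB_component h0 h1 L hσ
          exact ⟨hlt, hB, pos_of_nonneg hσ hz2 hA⟩
        exact absurd ⟨hlt, pos_of_nonneg hσ hz2 hA, pos_of_nonneg hτ hz3 hB⟩ hzf.2
      · rintro (rfl | rfl | rfl)
        · obtain ⟨z, hz⟩ := arcD_nonempty (X := X) h0 h1 hσ hτ
          refine ⟨⟨z, ?_, (arcD_component h0 h1 L hσ hτ hz).symm⟩, ?_⟩
          · refine ⟨(mem_carrier h0 h1 L hz.1.le).2 (Or.inr (Or.inr hz.1)), fun hc => ?_⟩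
            rcases mem_crossings h0 h1 L hz.1.le hc with h | h | h
            · exact ne_zero_of_pos hz.2.1 h.1
            · exact ne_zero_of_pos hz.2.1 h.1
            · exact ne_zero_of_pos hz.2.2 h.1
          · intro y hy
            rw [hfr]
            exact ⟨arcD_closure h0 h1 hy, fun h => h.1.ne hy.1⟩
        · obtain ⟨z, hz⟩ := arcA_nonempty (X := X) h0 h1 hτ
          refine ⟨⟨z, ?_, (arcA_component h0 h1 L hτ hz).symm⟩, ?_⟩
          · refine ⟨(mem_carrier h0 h1 L hz.1.le).2 (Or.inl hz.2.1), fun hc => ?_⟩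
            rcases mem_crossings h0 h1 L hz.1.le hc with h | h | h
            · exact ne_zero_of_pos hz.2.2 h.2
            · exact hz.1.ne h.2
            · exact hz.1.ne h.2
          · intro y hy
            rw [hfr]
            exact ⟨arcA_closure h1 hσ hy, fun h => ne_zero_of_pos h.2.1 hy.2.1⟩
        · obtain ⟨z, hz⟩ := arcB_nonempty (X := X) h0 h1 hσ
          refine ⟨⟨z, ?_, (arcB_component h0 h1 L hσ hz).symm⟩, ?_⟩
          · refine ⟨(mem_carrier h0 h1 L hz.1.le).2 (Or.inr (Or.inl hz.2.1)), fun hc => ?_⟩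
            rcases mem_crossings h0 h1 L hz.1.le hc with h | h | h
            · exact ne_zero_of_pos hz.2.2 h.1
            · exact hz.1.ne h.2
            · exact hz.1.ne h.2
          · intro y hy
            rw [hfr]
            exact ⟨arcB_closure h1 hτ hy, fun h => ne_zero_of_pos h.2.2 hy.2.1⟩
    rw [hset]
    have n1 : X.arcD κ σ τ ≠ X.arcA κ τ := by
      intro h
      obtain ⟨z, hz⟩ := arcD_nonempty (X := X) h0 h1 hσ hτ
      have hz' := h ▸ hz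
      exact hz'.1.ne hz.1
    have n2 : X.arcD κ σ τ ≠ X.arcB κ σ := by
      intro h
      obtain ⟨z, hz⟩ := arcD_nonempty (X := X) h0 h1 hσ hτ
      have hz' := h ▸ hz
      exact hz'.1.ne hz.1
    have n3 : X.arcA κ τ ≠ X.arcB κ σ := by
      intro h
      obtain ⟨z, hz⟩ := arcA_nonempty (X := X) h0 h1 hτ
      have hz' := h ▸ hz
      exact ne_zero_of_pos hz'.2.2 hz.2.1
    rw [Set.ncard_insert_of_notMem (by
      simp only [mem_insert_iff, mem_singleton_iff, not_or]; exact ⟨n1, n2⟩),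
      Set.ncard_pair n3]

end

end Cross

end Pool.Agent.Helper6.Orth
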