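import Pool.Agent.Helper6.Orth.Basic

/-!
Local picture at a crossing point of two orthogonal circles, inside a circle of the Apollonian pencil.
-/

namespace Pool.Agent.Helper6.Orth

open Complex Set Filter Topology

/-- A set which is relatively open and relatively closed in `Y`, preconnected and nonempty, is a
connected component of `Y`. -/
lemma component_eq {Y E O K : Set ℂ} {z : ℂ} (hz : z ∈ E) (hE : IsPreconnected E)
    (hO : IsOpen O) (hK : IsClosed K) (h1 : E = Y ∩ O) (h2 : E = Y ∩ K) :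
    connectedComponentIn Y z = E := by
  have hEY : E ⊆ Y := by rw [h1]; exact inter_subset_left
  apply Subset.antisymm
  · have hC := isPreconnected_connectedComponentIn (x := z) (F := Y)
    have hCY : connectedComponentIn Y z ⊆ Y := connectedComponentIn_subset Y z
    have hzC : z ∈ connectedComponentIn Y z := mem_connectedComponentIn (hEY hz)
    have k1 : connectedComponentIn Y z ⊆ O ∪ Kᶜ := by
      intro y hy
      by_cases hyK : y ∈ K
      · left
        have h3 : y ∈ E := by rw [h2]; exact ⟨hCY hy, hyK⟩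
        rw [h1] at h3
        exact h3.2
      · right; exact hyK
    have k2 : connectedComponentIn Y z ∩ (O ∩ Kᶜ) = ∅ := by
      rw [eq_empty_iff_forall_notMem]
      rintro y ⟨hy, hyO, hyK⟩
      have h3 : y ∈ E := by rw [h1]; exact ⟨hCY hy, hyO⟩
      rw [h2] at h3
      exact hyK h3.2
    rcases isPreconnected_iff_subset_of_disjoint.1 hC O Kᶜ hO hK.isOpen_compl k1 k2 with h | h
    · intro y hy
      rw [h1]
      exact ⟨hCY hy, h hy⟩
    · exfalso
      have h3 : z ∈ Y ∩ K := h2 ▸ hz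
      exact h hzC h3.2
  · exact hE.subset_connectedComponentIn hz hEY

/-! ### The linear functionals -/

/-- The functional `w ↦ Re ((1 + iα) w)`. -/
def lin (α : ℝ) (w : ℂ) : ℝ := w.re - α * w.im

lemma lin_add (α : ℝ) (w w' : ℂ) : lin α (w + w') = lin α w + lin α w' := by
  simp only [lin, add_re, add_im]; ring

lemma lin_smul (α t : ℝ) (w : ℂ) : lin α (t • w) = t * lin α w := by
  simp only [lin, real_smul, mul_re, mul_im, ofReal_re, ofReal_im]; ring

lemma lin_zero (α : ℝ) : lin α 0 = 0 := by simp [lin]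

lemma continuous_lin (α : ℝ) : Continuous (lin α) :=
  continuous_re.sub (continuous_const.mul continuous_im)

lemma convex_pos (α s : ℝ) : Convex ℝ {w : ℂ | 0 < s * lin α w} := by
  intro x hx y hy a b ha hb hab
  simp only [mem_ofPred_eq] at *
  rw [lin_add, lin_smul, lin_smul]
  rcases ha.eq_or_lt with h | h
  · have hb1 : b = 1 := by linarith
    rw [← h, hb1]; simpa using hy
  · have h1 : 0 < a * (s * lin α x) := mul_pos h hx
    have h2 : 0 ≤ b * (s * lin α y) := mul_nonneg hb hy.le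
    nlinarith

lemma convex_zero (α : ℝ) : Convex ℝ {w : ℂ | lin α w = 0} := by
  intro x hx y hy a b _ _ _
  simp only [mem_ofPred_eq] at *
  rw [lin_add, lin_smul, lin_smul, hx, hy]
  ring

/-- A point with `lin α = 0` and `lin β` of the sign of `τ`. -/
noncomputable def wA (α β τ : ℝ) : ℂ := (τ * (α - β)) • (⟨α, 1⟩ : ℂ)

lemma lin_wA_zero (α β τ : ℝ) : lin α (wA α β τ) = 0 := by
  rw [wA, lin_smul]; simp [lin]

lemma lin_wA (α β τ : ℝ) : lin β (wA α β τ) = τ * (α - β) ^ 2 := by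
  rw [wA, lin_smul]; simp only [lin]; ring

/-! ### The Möbius map -/

/-- The Möbius map taking `0` to `P` and `∞` to `Q`. -/
noncomputable def mob (P Q w : ℂ) : ℂ := (P - Q * w) / (1 - w)

lemma mob_sub_P {P Q w : ℂ} (hw : w ≠ 1) : mob P Q w - P = w * (P - Q) / (1 - w) := by
  have : (1 : ℂ) - w ≠ 0 := sub_ne_zero.2 (Ne.symm hw)
  unfold mob; field_simp; ring

lemma mob_sub_Q {P Q w : ℂ} (hw : w ≠ 1) : mob P Q w - Q = (P - Q) / (1 - w) := by
  have : (1 : ℂ) - w ≠ 0 := sub_ne_zero.2 (Ne.symm hw)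
  unfold mob; field_simp; ring

lemma image_mob {P Q : ℂ} (hPQ : P ≠ Q) {Ω : Set ℂ} (hΩ : ∀ w ∈ Ω, w ≠ 1) :
    mob P Q '' Ω = {z | z ≠ Q ∧ (z - P) / (z - Q) ∈ Ω} := by
  have hPQ' : P - Q ≠ 0 := sub_ne_zero.2 hPQ
  ext z
  constructor
  · rintro ⟨w, hw, rfl⟩
    have h1 := hΩ w hw
    have h2 : (1 : ℂ) - w ≠ 0 := sub_ne_zero.2 (Ne.symm h1)
    have h3 : mob P Q w - Q ≠ 0 := by rw [mob_sub_Q h1]; exact div_ne_zero hPQ' h2
    refine ⟨sub_ne_zero.1 h3, ?_⟩
    rw [mob_sub_P h1, mob_sub_Q h1]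
    have : w * (P - Q) / (1 - w) / ((P - Q) / (1 - w)) = w := by field_simp
    rwa [this]
  · rintro ⟨hz, hw⟩
    refine ⟨_, hw, ?_⟩
    have hz' : z - Q ≠ 0 := sub_ne_zero.2 hz
    unfold mob
    have h2 : (1 : ℂ) - (z - P) / (z - Q) = (P - Q) / (z - Q) := by field_simp; ring
    rw [h2]
    field_simp
    ring

lemma continuousAt_mob {P Q w : ℂ} (hw : w ≠ 1) : ContinuousAt (mob P Q) w := by
  have : (1 : ℂ) - w ≠ 0 := sub_ne_zero.2 (Ne.symm hw)
  unfold mob
  exact ContinuousAt.div (by fun_prop) (by fun_prop) this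

/-! ### The data at a crossing point -/

/-- The function which vanishes on the circle `A`, is negative inside and positive outside. -/
noncomputable def fn (A : Circ) (z : ℂ) : ℝ := normSq (z - A.c) - A.r ^ 2

lemma fn_eq_zero {A : Circ} {z : ℂ} : fn A z = 0 ↔ z ∈ A.pts := by
  rw [mem_pts_sq, fn, sub_eq_zero]

lemma continuous_fn (A : Circ) : Continuous (fn A) := by
  unfold fn
  exact (continuous_normSq.comp (continuous_id.sub continuous_const)).sub continuous_const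

/-- Data at a crossing point: two orthogonal circles `A`, `B` crossing at `P` and `Q`. -/
structure Cross where
  A : Circ
  B : Circ
  P : ℂ
  Q : ℂ
  ne : P ≠ Q
  orth : A.Orthogonal B
  PA : P ∈ A.pts
  PB : P ∈ B.pts
  QA : Q ∈ A.pts
  QB : Q ∈ B.pts

namespace Cross

variable (X : Cross)

/-- The parameter of a circle through `P` and `Q`. -/
lemma param_exists {A : Circ} (hP : X.P ∈ A.pts) (hQ : X.Q ∈ A.pts) :
    ∃ t : ℝ, A.c = (X.P + X.Q) / 2 + (X.P - X.Q) / 2 * (t * I) ∧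
      A.r ^ 2 = normSq ((X.P - X.Q) / 2) * (1 + t ^ 2) := by
  have hh : (X.P - X.Q) / 2 ≠ 0 := div_ne_zero (sub_ne_zero.2 X.ne) two_ne_zero
  set h := (X.P - X.Q) / 2 with hh'
  set m := (X.P + X.Q) / 2 with hm
  obtain ⟨ζ, hζ⟩ : ∃ ζ : ℂ, A.c = m + h * ζ := ⟨(A.c - m) / h, by field_simp; ring⟩
  have e1 : X.P - A.c = h * (1 - ζ) := by rw [hζ, hm, hh']; ring
  have e2 : X.Q - A.c = h * (-1 - ζ) := by rw [hζ, hm, hh']; ring
  rw [mem_pts_sq] at hP hQ
  rw [e1, normSq_mul] at hP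
  rw [e2, normSq_mul] at hQ
  have hn : 0 < normSq h := normSq_pos.2 hh
  have h3 : normSq (1 - ζ) = normSq (-1 - ζ) := by
    apply mul_left_cancel₀ hn.ne'
    rw [hP, hQ]
  have h4 : ζ.re = 0 := by
    simp only [normSq_apply, sub_re, sub_im, neg_re, neg_im, one_re, one_im] at h3
    nlinarith
  refine ⟨ζ.im, ?_, ?_⟩
  · rw [hζ]
    congr 2
    apply Complex.ext <;> simp [h4]
  · rw [← hP]
    congr 1
    simp only [normSq_apply, sub_re, sub_im, one_re, one_im, h4]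
    ring

/-- The parameter of `A`. -/
noncomputable def α : ℝ := (X.param_exists X.PA X.QA).choose

/-- The parameter of `B`. -/
noncomputable def β : ℝ := (X.param_exists X.PB X.QB).choose

lemma fn_param {A : Circ} {t : ℝ} (h1 : A.c = (X.P + X.Q) / 2 + (X.P - X.Q) / 2 * (t * I))
    (h2 : A.r ^ 2 = normSq ((X.P - X.Q) / 2) * (1 + t ^ 2)) {z : ℂ} (hz : z ≠ X.Q) :
    fn A z = normSq (z - X.Q) * lin t ((z - X.P) / (z - X.Q)) := by
  have hh : (X.P - X.Q) / 2 ≠ 0 := div_ne_zero (sub_ne_zero.2 X.ne) two_ne_zero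
  unfold fn
  rw [h1, h2]
  have hPe : X.P = (X.P + X.Q) / 2 + (X.P - X.Q) / 2 := by ring
  have hQe : X.Q = (X.P + X.Q) / 2 - (X.P - X.Q) / 2 := by ring
  generalize (X.P - X.Q) / 2 = h at *
  generalize (X.P + X.Q) / 2 = m at *
  obtain ⟨Z, hZ⟩ : ∃ Z : ℂ, z = m + h * Z := ⟨(z - m) / h, by field_simp; ring⟩
  have e1 : z - (m + h * (t * I)) = h * (Z - t * I) := by rw [hZ]; ring
  have e2 : z - X.P = h * (Z - 1) := by rw [hZ, hPe]; ring
  have e3 : z - X.Q = h * (Z + 1) := by rw [hZ, hQe]; ring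
  have hz' : z - X.Q ≠ 0 := sub_ne_zero.2 hz
  have hZ1 : Z + 1 ≠ 0 := by
    intro h0
    rw [e3, h0, mul_zero] at hz'
    exact hz' rfl
  have hn1 : normSq (Z + 1) ≠ 0 := fun h0 => hZ1 (normSq_eq_zero.1 h0)
  rw [e1, e2, e3, mul_div_mul_left _ _ hh, normSq_mul, normSq_mul]
  have e4 : lin t ((Z - 1) / (Z + 1)) * normSq (Z + 1) =
      (Z - 1).re * (Z + 1).re + (Z - 1).im * (Z + 1).im
        - t * ((Z - 1).im * (Z + 1).re - (Z - 1).re * (Z + 1).im) := by
    unfold lin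
    rw [div_re, div_im]
    field_simp
  have e5 : normSq h * normSq (Z + 1) * lin t ((Z - 1) / (Z + 1)) =
      normSq h * (lin t ((Z - 1) / (Z + 1)) * normSq (Z + 1)) := by ring
  rw [e5, e4]
  simp only [normSq_apply, sub_re, sub_im, add_re, add_im, one_re, one_im, mul_re, mul_im,
    ofReal_re, ofReal_im, I_re, I_im]
  ring

lemma fnA {z : ℂ} (hz : z ≠ X.Q) :
    fn X.A z = normSq (z - X.Q) * lin X.α ((z - X.P) / (z - X.Q)) :=
  X.fn_param (X.param_exists X.PA X.QA).choose_spec.1 (X.param_exists X.PA X.QA).choose_spec.2 hz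

lemma fnB {z : ℂ} (hz : z ≠ X.Q) :
    fn X.B z = normSq (z - X.Q) * lin X.β ((z - X.P) / (z - X.Q)) :=
  X.fn_param (X.param_exists X.PB X.QB).choose_spec.1 (X.param_exists X.PB X.QB).choose_spec.2 hz

lemma α_spec : X.A.c = (X.P + X.Q) / 2 + (X.P - X.Q) / 2 * (X.α * I) ∧
    X.A.r ^ 2 = normSq ((X.P - X.Q) / 2) * (1 + X.α ^ 2) :=
  (X.param_exists X.PA X.QA).choose_spec

lemma β_spec : X.B.c = (X.P + X.Q) / 2 + (X.P - X.Q) / 2 * (X.β * I) ∧
    X.B.r ^ 2 = normSq ((X.P - X.Q) / 2) * (1 + X.β ^ 2) :=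
  (X.param_exists X.PB X.QB).choose_spec

lemma αβ : X.α * X.β = -1 := by
  obtain ⟨hA1, hA2⟩ := X.α_spec
  obtain ⟨hB1, hB2⟩ := X.β_spec
  have h := X.orth.normSq
  have hh : (X.P - X.Q) / 2 ≠ 0 := div_ne_zero (sub_ne_zero.2 X.ne) two_ne_zero
  have hn : 0 < normSq ((X.P - X.Q) / 2) := normSq_pos.2 hh
  rw [hA2, hB2, hA1, hB1] at h
  have e : (X.P + X.Q) / 2 + (X.P - X.Q) / 2 * (X.α * I) -
      ((X.P + X.Q) / 2 + (X.P - X.Q) / 2 * (X.β * I)) =
      (X.P - X.Q) / 2 * (((X.α - X.β : ℝ) : ℂ) * I) := by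
    push_cast
    ring
  rw [e, normSq_mul] at h
  have e2 : normSq (((X.α - X.β : ℝ) : ℂ) * I) = (X.α - X.β) ^ 2 := by
    rw [normSq_mul, normSq_I, mul_one, normSq_ofReal, sq]
  rw [e2] at h
  have h3 : (X.α - X.β) ^ 2 = 2 + X.α ^ 2 + X.β ^ 2 := by
    apply mul_left_cancel₀ hn.ne'
    rw [h]; ring
  have h4 : (X.α - X.β) ^ 2 = X.α ^ 2 - 2 * (X.α * X.β) + X.β ^ 2 := by ring
  linarith

lemma α_ne_β : X.α ≠ X.β := by
  intro h
  have := X.αβ
  rw [h] at this
  nlinarith [mul_self_nonneg X.β]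

end Cross

end Pool.Agent.Helper6.Orth
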