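import Pool.Agent.Helper6.Orth.Local

/-!
The four triangular faces inside a circle of the pencil.
-/

namespace Pool.Agent.Helper6.Orth

open Complex Set Filter Topology

/-! ### The model sets in the `w`-plane -/

/-- The open sector cut by the disc of radius `κ`. -/
def secF (α β κ σ τ : ℝ) : Set ℂ := {w | ‖w‖ < κ ∧ 0 < σ * lin α w ∧ 0 < τ * lin β w}

/-- The circular arc of the sector. -/
def secD (α β κ σ τ : ℝ) : Set ℂ := {w | ‖w‖ = κ ∧ 0 < σ * lin α w ∧ 0 < τ * lin β w}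

/-- The side of the sector on the line `lin α = 0`. -/
def secA (α β κ τ : ℝ) : Set ℂ := {w | ‖w‖ < κ ∧ lin α w = 0 ∧ 0 < τ * lin β w}

lemma convex_norm_lt (κ : ℝ) : Convex ℝ {w : ℂ | ‖w‖ < κ} := by
  have : {w : ℂ | ‖w‖ < κ} = Metric.ball 0 κ := by ext w; simp
  rw [this]
  exact convex_ball 0 κ

lemma preconnected_secF (α β κ σ τ : ℝ) : IsPreconnected (secF α β κ σ τ) := by
  have : secF α β κ σ τ = {w : ℂ | ‖w‖ < κ} ∩ ({w | 0 < σ * lin α w} ∩ {w | 0 < τ * lin β w}) := by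
    ext w; simp [secF]
  rw [this]
  exact ((convex_norm_lt κ).inter ((convex_pos α σ).inter (convex_pos β τ))).isPreconnected

lemma preconnected_secA (α β κ τ : ℝ) : IsPreconnected (secA α β κ τ) := by
  have : secA α β κ τ = {w : ℂ | ‖w‖ < κ} ∩ ({w | lin α w = 0} ∩ {w | 0 < τ * lin β w}) := by
    ext w; simp [secA]
  rw [this]
  exact ((convex_norm_lt κ).inter ((convex_zero α).inter (convex_pos β τ))).isPreconnected

lemma ne_zero_of_lin {α s : ℝ} {w : ℂ} (h : 0 < s * lin α w) : w ≠ 0 := by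
  rintro rfl
  rw [lin_zero, mul_zero] at h
  exact lt_irrefl _ h

lemma scale_pos {α s t : ℝ} {w : ℂ} (ht : 0 < t) (h : 0 < s * lin α w) : 0 < s * lin α (t • w) := by
  rw [lin_smul]
  have : s * (t * lin α w) = t * (s * lin α w) := by ring
  rw [this]
  exact mul_pos ht h

lemma preconnected_secD (α β κ σ τ : ℝ) (hκ : 0 < κ) : IsPreconnected (secD α β κ σ τ) := by
  set cone : Set ℂ := {w | 0 < σ * lin α w} ∩ {w | 0 < τ * lin β w} with hcone
  have h1 : IsPreconnected cone := ((convex_pos α σ).inter (convex_pos β τ)).isPreconnected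
  have h2 : ContinuousOn (fun w : ℂ => (κ / ‖w‖) • w) cone := by
    have h2a : ContinuousOn (fun w : ℂ => κ / ‖w‖) cone := by
      apply ContinuousOn.div continuousOn_const continuous_norm.continuousOn
      intro w hw
      exact norm_ne_zero_iff.2 (ne_zero_of_lin hw.1)
    exact h2a.smul (g := fun w : ℂ => w) continuousOn_id
  have h3 : secD α β κ σ τ = (fun w : ℂ => (κ / ‖w‖) • w) '' cone := by
    ext w
    constructor
    · rintro ⟨hw, h4, h5⟩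
      refine ⟨w, ⟨h4, h5⟩, ?_⟩
      simp only [hw]
      rw [div_self hκ.ne', one_smul]
    · rintro ⟨v, ⟨h4, h5⟩, rfl⟩
      have hv : 0 < ‖v‖ := norm_pos_iff.2 (ne_zero_of_lin h4)
      have hk : 0 < κ / ‖v‖ := div_pos hκ hv
      refine ⟨?_, scale_pos hk h4, scale_pos hk h5⟩
      simp only [norm_smul, Real.norm_eq_abs, abs_of_pos hk]
      field_simp
  rw [h3]
  exact h1.image _ h2

lemma cone_nonempty {α β σ τ : ℝ} (hαβ : α ≠ β) (hσ : σ ≠ 0) (hτ : τ ≠ 0) :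
    ∃ w : ℂ, 0 < σ * lin α w ∧ 0 < τ * lin β w := by
  have h1 : 0 < (α - β) ^ 2 := by
    have := sub_ne_zero.2 hαβ
    positivity
  refine ⟨wA α β τ + wA β α σ, ?_, ?_⟩
  · rw [lin_add, lin_wA_zero, lin_wA, zero_add]
    have : σ * (σ * (β - α) ^ 2) = σ ^ 2 * (α - β) ^ 2 := by ring
    rw [this]; positivity
  · rw [lin_add, lin_wA_zero, lin_wA, add_zero]
    have : τ * (τ * (α - β) ^ 2) = τ ^ 2 * (α - β) ^ 2 := by ring
    rw [this]; positivity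

lemma secF_nonempty {α β κ σ τ : ℝ} (hκ : 0 < κ) (hαβ : α ≠ β) (hσ : σ ≠ 0) (hτ : τ ≠ 0) :
    (secF α β κ σ τ).Nonempty := by
  obtain ⟨w, h1, h2⟩ := cone_nonempty hαβ hσ hτ
  have hw : 0 < ‖w‖ := norm_pos_iff.2 (ne_zero_of_lin h1)
  have hk : 0 < κ / 2 / ‖w‖ := by positivity
  refine ⟨(κ / 2 / ‖w‖) • w, ?_, scale_pos hk h1, scale_pos hk h2⟩
  rw [norm_smul, Real.norm_eq_abs, abs_of_pos hk]
  have : κ / 2 / ‖w‖ * ‖w‖ = κ / 2 := by field_simp
  rw [this]; linarith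

lemma secD_nonempty {α β κ σ τ : ℝ} (hκ : 0 < κ) (hαβ : α ≠ β) (hσ : σ ≠ 0) (hτ : τ ≠ 0) :
    (secD α β κ σ τ).Nonempty := by
  obtain ⟨w, h1, h2⟩ := cone_nonempty hαβ hσ hτ
  have hw : 0 < ‖w‖ := norm_pos_iff.2 (ne_zero_of_lin h1)
  have hk : 0 < κ / ‖w‖ := by positivity
  refine ⟨(κ / ‖w‖) • w, ?_, scale_pos hk h1, scale_pos hk h2⟩
  rw [norm_smul, Real.norm_eq_abs, abs_of_pos hk]
  field_simp

lemma secA_nonempty {α β κ τ : ℝ} (hκ : 0 < κ) (hαβ : α ≠ β) (hτ : τ ≠ 0) :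
    (secA α β κ τ).Nonempty := by
  have h1 : 0 < (α - β) ^ 2 := by
    have := sub_ne_zero.2 hαβ
    positivity
  have h2 : 0 < τ * lin β (wA α β τ) := by
    rw [lin_wA]
    have : τ * (τ * (α - β) ^ 2) = τ ^ 2 * (α - β) ^ 2 := by ring
    rw [this]; positivity
  have hw : 0 < ‖wA α β τ‖ := norm_pos_iff.2 (ne_zero_of_lin h2)
  have hk : 0 < κ / 2 / ‖wA α β τ‖ := by positivity
  refine ⟨(κ / 2 / ‖wA α β τ‖) • wA α β τ, ?_, ?_, scale_pos hk h2⟩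
  · rw [norm_smul, Real.norm_eq_abs, abs_of_pos hk]
    have : κ / 2 / ‖wA α β τ‖ * ‖wA α β τ‖ = κ / 2 := by field_simp
    rw [this]; linarith
  · rw [lin_smul, lin_wA_zero, mul_zero]

lemma secD_subset_closure {α β κ σ τ : ℝ} (hκ : 0 < κ) :
    secD α β κ σ τ ⊆ closure (secF α β κ σ τ) := by
  rintro w ⟨hw, h1, h2⟩
  have ht : Tendsto (fun t : ℝ => (1 - t) • w) (𝓝[>] 0) (𝓝 w) := by
    have hc : Continuous fun t : ℝ => (1 - t) • w := by fun_prop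
    have := (hc.tendsto 0).mono_left (nhdsWithin_le_nhds (s := Ioi 0))
    simpa using this
  refine mem_closure_of_tendsto ht ?_
  have hev : ∀ᶠ t : ℝ in 𝓝[>] 0, t < 1 := by
    have : ∀ᶠ t : ℝ in 𝓝 0, t < 1 := (isOpen_Iio).mem_nhds (by norm_num)
    exact this.filter_mono nhdsWithin_le_nhds
  filter_upwards [hev, self_mem_nhdsWithin] with t ht1 ht0
  have ht0' : (0 : ℝ) < t := ht0
  have h3 : 0 < 1 - t := by linarith
  refine ⟨?_, scale_pos h3 h1, scale_pos h3 h2⟩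
  rw [norm_smul, Real.norm_eq_abs, abs_of_pos h3, hw]
  nlinarith

lemma secA_subset_closure {α β κ σ τ : ℝ} (hαβ : α ≠ β) (hσ : σ ≠ 0) :
    secA α β κ τ ⊆ closure (secF α β κ σ τ) := by
  rintro w ⟨hw, h1, h2⟩
  have h0 : 0 < (β - α) ^ 2 := by
    have := sub_ne_zero.2 hαβ.symm
    positivity
  have ht : Tendsto (fun t : ℝ => w + t • wA β α σ) (𝓝[>] 0) (𝓝 w) := by
    have hc : Continuous fun t : ℝ => w + t • wA β α σ := by fun_prop
    have := (hc.tendsto 0).mono_left (nhdsWithin_le_nhds (s := Ioi 0))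
    simpa using this
  refine mem_closure_of_tendsto ht ?_
  have hev : ∀ᶠ t : ℝ in 𝓝[>] 0, ‖w + t • wA β α σ‖ < κ := by
    have hc : Tendsto (fun t : ℝ => ‖w + t • wA β α σ‖) (𝓝[>] 0) (𝓝 ‖w‖) := ht.norm
    exact hc.eventually (isOpen_Iio.mem_nhds hw)
  filter_upwards [hev, self_mem_nhdsWithin] with t ht1 ht0
  have ht0' : (0 : ℝ) < t := ht0
  refine ⟨ht1, ?_, ?_⟩
  · rw [lin_add, lin_smul, h1, lin_wA, zero_add]
    have : σ * (t * (σ * (β - α) ^ 2)) = t * (σ ^ 2 * (β - α) ^ 2) := by ring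
    rw [this]
    positivity
  · rw [lin_add, lin_smul, lin_wA_zero, mul_zero, add_zero]
    exact h2

lemma secF_swap (α β κ σ τ : ℝ) : secF α β κ σ τ = secF β α κ τ σ := by
  ext w; simp only [secF, mem_ofPred_eq]; tauto

/-! ### The sets in the plane -/

namespace Cross

variable (X : Cross) (κ σ τ : ℝ)

/-- The candidate faces. -/
def face : Set ℂ := {z | ‖z - X.P‖ < κ * ‖z - X.Q‖ ∧ 0 < σ * fn X.A z ∧ 0 < τ * fn X.B z}

/-- The arc on the circle of the pencil. -/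
def arcD : Set ℂ := {z | ‖z - X.P‖ = κ * ‖z - X.Q‖ ∧ 0 < σ * fn X.A z ∧ 0 < τ * fn X.B z}

/-- The arc on the circle `A`. -/
def arcA : Set ℂ := {z | ‖z - X.P‖ < κ * ‖z - X.Q‖ ∧ fn X.A z = 0 ∧ 0 < τ * fn X.B z}

/-- The arc on the circle `B`. -/
def arcB : Set ℂ := {z | ‖z - X.P‖ < κ * ‖z - X.Q‖ ∧ fn X.B z = 0 ∧ 0 < σ * fn X.A z}

variable {X κ σ τ}

lemma norm_div_lt {z : ℂ} (hz : z ≠ X.Q) :
    ‖(z - X.P) / (z - X.Q)‖ < κ ↔ ‖z - X.P‖ < κ * ‖z - X.Q‖ := by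
  rw [norm_div, div_lt_iff₀ (norm_pos_iff.2 (sub_ne_zero.2 hz))]

lemma norm_div_eq {z : ℂ} (hz : z ≠ X.Q) :
    ‖(z - X.P) / (z - X.Q)‖ = κ ↔ ‖z - X.P‖ = κ * ‖z - X.Q‖ := by
  rw [norm_div, div_eq_iff (norm_ne_zero_iff.2 (sub_ne_zero.2 hz))]

lemma posA {z : ℂ} (hz : z ≠ X.Q) {s : ℝ} :
    0 < s * lin X.α ((z - X.P) / (z - X.Q)) ↔ 0 < s * fn X.A z := by
  have h : 0 < normSq (z - X.Q) := normSq_pos.2 (sub_ne_zero.2 hz)
  rw [X.fnA hz, mul_left_comm, mul_pos_iff_of_pos_left h]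

lemma posB {z : ℂ} (hz : z ≠ X.Q) {s : ℝ} :
    0 < s * lin X.β ((z - X.P) / (z - X.Q)) ↔ 0 < s * fn X.B z := by
  have h : 0 < normSq (z - X.Q) := normSq_pos.2 (sub_ne_zero.2 hz)
  rw [X.fnB hz, mul_left_comm, mul_pos_iff_of_pos_left h]

lemma zeroA {z : ℂ} (hz : z ≠ X.Q) :
    lin X.α ((z - X.P) / (z - X.Q)) = 0 ↔ fn X.A z = 0 := by
  have h : normSq (z - X.Q) ≠ 0 := (normSq_pos.2 (sub_ne_zero.2 hz)).ne'
  rw [X.fnA hz, mul_eq_zero, or_iff_right h]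

lemma zeroB {z : ℂ} (hz : z ≠ X.Q) :
    lin X.β ((z - X.P) / (z - X.Q)) = 0 ↔ fn X.B z = 0 := by
  have h : normSq (z - X.Q) ≠ 0 := (normSq_pos.2 (sub_ne_zero.2 hz)).ne'
  rw [X.fnB hz, mul_eq_zero, or_iff_right h]

lemma ne_Q_of_lt {z : ℂ} (h : ‖z - X.P‖ < κ * ‖z - X.Q‖) : z ≠ X.Q := by
  rintro rfl
  rw [sub_self, norm_zero, mul_zero] at h
  exact absurd h (not_lt.2 (norm_nonneg _))

lemma ne_Q_of_le {z : ℂ} (h : ‖z - X.P‖ ≤ κ * ‖z - X.Q‖) : z ≠ X.Q := by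
  rintro rfl
  rw [sub_self, norm_zero, mul_zero] at h
  have h2 : X.Q - X.P = 0 := norm_le_zero_iff.1 h
  exact X.ne (sub_eq_zero.1 h2).symm

lemma face_eq (hκ : κ < 1) : X.face κ σ τ = mob X.P X.Q '' secF X.α X.β κ σ τ := by
  rw [image_mob X.ne]
  · ext z
    constructor
    · rintro ⟨h1, h2, h3⟩
      have hz := ne_Q_of_lt h1
      exact ⟨hz, (norm_div_lt hz).2 h1, (posA hz).2 h2, (posB hz).2 h3⟩
    · rintro ⟨hz, h1, h2, h3⟩
      exact ⟨(norm_div_lt hz).1 h1, (posA hz).1 h2, (posB hz).1 h3⟩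
  · rintro w ⟨hw, -, -⟩ rfl
    rw [norm_one] at hw
    linarith

lemma arcD_eq (hκ : κ < 1) : X.arcD κ σ τ = mob X.P X.Q '' secD X.α X.β κ σ τ := by
  rw [image_mob X.ne]
  · ext z
    constructor
    · rintro ⟨h1, h2, h3⟩
      have hz := ne_Q_of_le h1.le
      exact ⟨hz, (norm_div_eq hz).2 h1, (posA hz).2 h2, (posB hz).2 h3⟩
    · rintro ⟨hz, h1, h2, h3⟩
      exact ⟨(norm_div_eq hz).1 h1, (posA hz).1 h2, (posB hz).1 h3⟩
  · rintro w ⟨hw, -, -⟩ rfl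
    rw [norm_one] at hw
    linarith

lemma arcA_eq (hκ : κ < 1) : X.arcA κ τ = mob X.P X.Q '' secA X.α X.β κ τ := by
  rw [image_mob X.ne]
  · ext z
    constructor
    · rintro ⟨h1, h2, h3⟩
      have hz := ne_Q_of_lt h1
      exact ⟨hz, (norm_div_lt hz).2 h1, (zeroA hz).2 h2, (posB hz).2 h3⟩
    · rintro ⟨hz, h1, h2, h3⟩
      exact ⟨(norm_div_lt hz).1 h1, (zeroA hz).1 h2, (posB hz).1 h3⟩
  · rintro w ⟨hw, -, -⟩ rfl
    rw [norm_one] at hw
    linarith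

lemma arcB_eq (hκ : κ < 1) : X.arcB κ σ = mob X.P X.Q '' secA X.β X.α κ σ := by
  rw [image_mob X.ne]
  · ext z
    constructor
    · rintro ⟨h1, h2, h3⟩
      have hz := ne_Q_of_lt h1
      exact ⟨hz, (norm_div_lt hz).2 h1, (zeroB hz).2 h2, (posA hz).2 h3⟩
    · rintro ⟨hz, h1, h2, h3⟩
      exact ⟨(norm_div_lt hz).1 h1, (zeroB hz).1 h2, (posA hz).1 h3⟩
  · rintro w ⟨hw, -, -⟩ rfl
    rw [norm_one] at hw
    linarith

lemma preconnected_image_mob {Ω : Set ℂ} (h : IsPreconnected Ω) (h1 : ∀ w ∈ Ω, w ≠ 1) :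
    IsPreconnected (mob X.P X.Q '' Ω) :=
  h.image _ fun w hw => (continuousAt_mob (h1 w hw)).continuousWithinAt

lemma image_mob_closure {Ω Ω' : Set ℂ} (h : Ω' ⊆ closure Ω) (h1 : ∀ w ∈ Ω', w ≠ 1) :
    mob X.P X.Q '' Ω' ⊆ closure (mob X.P X.Q '' Ω) := by
  rintro _ ⟨w, hw, rfl⟩
  exact mem_closure_image (continuousAt_mob (h1 w hw)) (h hw)

lemma norm_ne_one {w : ℂ} (hκ : κ < 1) (h : ‖w‖ ≤ κ) : w ≠ 1 := by
  rintro rfl
  rw [norm_one] at h
  linarith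

lemma face_preconnected (hκ : κ < 1) : IsPreconnected (X.face κ σ τ) := by
  rw [face_eq hκ]
  exact preconnected_image_mob (preconnected_secF _ _ _ _ _) fun w hw => norm_ne_one hκ hw.1.le

lemma arcD_preconnected (h0 : 0 < κ) (hκ : κ < 1) : IsPreconnected (X.arcD κ σ τ) := by
  rw [arcD_eq hκ]
  exact preconnected_image_mob (preconnected_secD _ _ _ _ _ h0) fun w hw => norm_ne_one hκ hw.1.le

lemma arcA_preconnected (hκ : κ < 1) : IsPreconnected (X.arcA κ τ) := by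
  rw [arcA_eq hκ]
  exact preconnected_image_mob (preconnected_secA _ _ _ _) fun w hw => norm_ne_one hκ hw.1.le

lemma arcB_preconnected (hκ : κ < 1) : IsPreconnected (X.arcB κ σ) := by
  rw [arcB_eq hκ]
  exact preconnected_image_mob (preconnected_secA _ _ _ _) fun w hw => norm_ne_one hκ hw.1.le

lemma face_nonempty (h0 : 0 < κ) (hκ : κ < 1) (hσ : σ ≠ 0) (hτ : τ ≠ 0) :
    (X.face κ σ τ).Nonempty := by
  rw [face_eq hκ]
  exact (secF_nonempty h0 X.α_ne_β hσ hτ).image _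

lemma arcD_nonempty (h0 : 0 < κ) (hκ : κ < 1) (hσ : σ ≠ 0) (hτ : τ ≠ 0) :
    (X.arcD κ σ τ).Nonempty := by
  rw [arcD_eq hκ]
  exact (secD_nonempty h0 X.α_ne_β hσ hτ).image _

lemma arcA_nonempty (h0 : 0 < κ) (hκ : κ < 1) (hτ : τ ≠ 0) : (X.arcA κ τ).Nonempty := by
  rw [arcA_eq hκ]
  exact (secA_nonempty h0 X.α_ne_β hτ).image _

lemma arcB_nonempty (h0 : 0 < κ) (hκ : κ < 1) (hσ : σ ≠ 0) : (X.arcB κ σ).Nonempty := by
  rw [arcB_eq hκ]
  exact (secA_nonempty h0 X.α_ne_β.symm hσ).image _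

lemma arcD_closure (h0 : 0 < κ) (hκ : κ < 1) : X.arcD κ σ τ ⊆ closure (X.face κ σ τ) := by
  rw [arcD_eq hκ, face_eq hκ]
  exact image_mob_closure (secD_subset_closure h0) fun w hw => norm_ne_one hκ hw.1.le

lemma arcA_closure (hκ : κ < 1) (hσ : σ ≠ 0) : X.arcA κ τ ⊆ closure (X.face κ σ τ) := by
  rw [arcA_eq hκ, face_eq hκ]
  exact image_mob_closure (secA_subset_closure X.α_ne_β hσ) fun w hw => norm_ne_one hκ hw.1.le

lemma arcB_closure (hκ : κ < 1) (hτ : τ ≠ 0) : X.arcB κ σ ⊆ closure (X.face κ σ τ) := by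
  rw [arcB_eq hκ, face_eq hκ, secF_swap]
  exact image_mob_closure (secA_subset_closure X.α_ne_β.symm hτ) fun w hw => norm_ne_one hκ hw.1.le

lemma continuous_nP : Continuous fun z : ℂ => ‖z - X.P‖ :=
  (continuous_id.sub continuous_const).norm

lemma continuous_nQ : Continuous fun z : ℂ => κ * ‖z - X.Q‖ :=
  continuous_const.mul (continuous_id.sub continuous_const).norm

lemma isOpen_inn : IsOpen {z : ℂ | ‖z - X.P‖ < κ * ‖z - X.Q‖} :=
  isOpen_lt continuous_nP continuous_nQ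

lemma isClosed_cl : IsClosed {z : ℂ | ‖z - X.P‖ ≤ κ * ‖z - X.Q‖} :=
  isClosed_le continuous_nP continuous_nQ

lemma isOpen_fn (s : ℝ) (A : Circ) : IsOpen {z : ℂ | 0 < s * fn A z} :=
  isOpen_lt continuous_const (continuous_const.mul (continuous_fn A))

lemma isClosed_fn (s : ℝ) (A : Circ) : IsClosed {z : ℂ | 0 ≤ s * fn A z} :=
  isClosed_le continuous_const (continuous_const.mul (continuous_fn A))

lemma isClosed_fn0 (A : Circ) : IsClosed {z : ℂ | fn A z = 0} :=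
  isClosed_eq (continuous_fn A) continuous_const

lemma isOpen_face : IsOpen (X.face κ σ τ) :=
  isOpen_inn.inter ((isOpen_fn σ X.A).inter (isOpen_fn τ X.B))

end Cross

end Pool.Agent.Helper6.Orth
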